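import Pool.Agent.V11124.FW.Defs

open Real

namespace Pool.Agent.V11124.FW

lemma w_fib (a b j : ℕ) : w a b (j + 2) = Nat.fib j * a + Nat.fib (j + 1) * b ∧
    w a b (j + 3) = Nat.fib (j + 1) * a + Nat.fib (j + 2) * b := by
  induction j with
  | zero => simp [w]; ring
  | succ j ih =>
    refine ⟨ih.2, ?_⟩
    show w a b (j + 3) + w a b (j + 2) = _
    rw [ih.1, ih.2, show Nat.fib (j + 1 + 1) = Nat.fib j + Nat.fib (j + 1) from Nat.fib_add_two,
      show Nat.fib (j + 1 + 2) = Nat.fib (j + 1) + Nat.fib (j + 2) from Nat.fib_add_two,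
      show Nat.fib (j + 2) = Nat.fib j + Nat.fib (j + 1) from Nat.fib_add_two]
    ring

/-- Cassini -/
lemma cassini (j : ℕ) : (Nat.fib (j + 1) : ℤ) ^ 2 - Nat.fib j * Nat.fib (j + 2) = (-1) ^ j := by
  induction j with
  | zero => simp
  | succ j ih =>
    have h1 : (Nat.fib (j + 1 + 2) : ℤ) = Nat.fib (j + 1) + Nat.fib (j + 2) := by
      exact_mod_cast (Nat.fib_add_two (n := j + 1))
    have h2 : (Nat.fib (j + 2) : ℤ) = Nat.fib j + Nat.fib (j + 1) := by
      exact_mod_cast (Nat.fib_add_two (n := j))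
    rw [h1, pow_succ (-1 : ℤ) j, ← ih, show j + 1 + 1 = j + 2 by ring, h2]
    ring

/-- feasibility of continuing backwards -/
def Feas (n : ℕ) (v : ℤ) (j : ℕ) : Prop :=
  ∃ a b : ℕ, 1 ≤ a ∧ 1 ≤ b ∧ w a b (j + 2) = n ∧ (w a b (j + 3) : ℤ) = v

lemma feas_iff_even (n : ℕ) (v : ℤ) (j : ℕ) (hj : Even j) :
    Feas n v j ↔ (Nat.fib (j + 2) : ℤ) * n < Nat.fib (j + 1) * v ∧
      (Nat.fib j : ℤ) * v < Nat.fib (j + 1) * n := by
  have hc := cassini j
  rw [hj.neg_one_pow] at hc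
  constructor
  · rintro ⟨a, b, ha, hb, h1, h2⟩
    obtain ⟨e1, e2⟩ := w_fib a b j
    rw [e1] at h1
    rw [e2] at h2
    subst h1
    push_cast at h2 ⊢
    rw [← h2]
    have ha' : (1 : ℤ) ≤ a := by exact_mod_cast ha
    have hb' : (1 : ℤ) ≤ b := by exact_mod_cast hb
    constructor
    · nlinarith
    · nlinarith
  · rintro ⟨h1, h2⟩
    refine ⟨((Nat.fib (j + 1) : ℤ) * v - Nat.fib (j + 2) * n).toNat,
      ((Nat.fib (j + 1) : ℤ) * n - Nat.fib j * v).toNat, by omega, by omega, ?_, ?_⟩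
    · obtain ⟨e1, -⟩ := w_fib ((Nat.fib (j + 1) : ℤ) * v - Nat.fib (j + 2) * n).toNat
        ((Nat.fib (j + 1) : ℤ) * n - Nat.fib j * v).toNat j
      rw [e1]
      have : ((Nat.fib j * ((Nat.fib (j + 1) : ℤ) * v - Nat.fib (j + 2) * n).toNat +
        Nat.fib (j + 1) * ((Nat.fib (j + 1) : ℤ) * n - Nat.fib j * v).toNat : ℕ) : ℤ) = n := by
        push_cast
        rw [Int.toNat_of_nonneg (by omega), Int.toNat_of_nonneg (by omega)]
        linear_combination (n : ℤ) * hc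
      exact_mod_cast this
    · obtain ⟨-, e2⟩ := w_fib ((Nat.fib (j + 1) : ℤ) * v - Nat.fib (j + 2) * n).toNat
        ((Nat.fib (j + 1) : ℤ) * n - Nat.fib j * v).toNat j
      rw [e2]
      push_cast
      rw [Int.toNat_of_nonneg (by omega), Int.toNat_of_nonneg (by omega)]
      linear_combination v * hc

lemma feas_iff_odd (n : ℕ) (v : ℤ) (j : ℕ) (hj : Odd j) :
    Feas n v j ↔ (Nat.fib (j + 1) : ℤ) * v < Nat.fib (j + 2) * n ∧
      (Nat.fib (j + 1) : ℤ) * n < Nat.fib j * v := by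
  have hc := cassini j
  rw [hj.neg_one_pow] at hc
  constructor
  · rintro ⟨a, b, ha, hb, h1, h2⟩
    obtain ⟨e1, e2⟩ := w_fib a b j
    rw [e1] at h1
    rw [e2] at h2
    subst h1
    push_cast at h2 ⊢
    rw [← h2]
    have ha' : (1 : ℤ) ≤ a := by exact_mod_cast ha
    have hb' : (1 : ℤ) ≤ b := by exact_mod_cast hb
    constructor
    · nlinarith
    · nlinarith
  · rintro ⟨h1, h2⟩
    refine ⟨((Nat.fib (j + 2) : ℤ) * n - Nat.fib (j + 1) * v).toNat,
      ((Nat.fib j : ℤ) * v - Nat.fib (j + 1) * n).toNat, by omega, by omega, ?_, ?_⟩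
    · obtain ⟨e1, -⟩ := w_fib ((Nat.fib (j + 2) : ℤ) * n - Nat.fib (j + 1) * v).toNat
        ((Nat.fib j : ℤ) * v - Nat.fib (j + 1) * n).toNat j
      rw [e1]
      have : ((Nat.fib j * ((Nat.fib (j + 2) : ℤ) * n - Nat.fib (j + 1) * v).toNat +
        Nat.fib (j + 1) * ((Nat.fib j : ℤ) * v - Nat.fib (j + 1) * n).toNat : ℕ) : ℤ) = n := by
        push_cast
        rw [Int.toNat_of_nonneg (by omega), Int.toNat_of_nonneg (by omega)]
        linear_combination -(n : ℤ) * hc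
      exact_mod_cast this
    · obtain ⟨-, e2⟩ := w_fib ((Nat.fib (j + 2) : ℤ) * n - Nat.fib (j + 1) * v).toNat
        ((Nat.fib j : ℤ) * v - Nat.fib (j + 1) * n).toNat j
      rw [e2]
      push_cast
      rw [Int.toNat_of_nonneg (by omega), Int.toNat_of_nonneg (by omega)]
      linear_combination -v * hc

/-- `⌊φ n⌋` -/
noncomputable def W (n : ℕ) : ℤ := ⌊goldenRatio * n⌋

lemma W_lt (n : ℕ) (hn : 1 ≤ n) : (W n : ℝ) < goldenRatio * n := by
  have h1 : (W n : ℝ) ≤ goldenRatio * n := Int.floor_le _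
  apply lt_of_le_of_ne h1
  intro h2
  have h3 : Irrational (goldenRatio * n) := by
    have := goldenRatio_irrational.mul_natCast (m := n) (by omega)
    exact this
  exact h3 ⟨(W n : ℚ), by rw [← h2]; push_cast; rfl⟩

lemma lt_W_add_one (n : ℕ) : goldenRatio * n < (W n : ℝ) + 1 := Int.lt_floor_add_one _

lemma ceil_eq (n : ℕ) (hn : 1 ≤ n) : ⌈goldenRatio * n⌉ = W n + 1 := by
  rw [Int.ceil_eq_iff]
  push_cast
  constructor
  · have := W_lt n hn; linarith
  · exact (lt_W_add_one n).le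

lemma fib_conj (j : ℕ) : (Nat.fib (j + 1) : ℝ) - goldenRatio * Nat.fib j = goldenConj ^ j :=
  Real.fib_succ_sub_goldenRatio_mul_fib j

lemma conj_pow_even {j : ℕ} (hj : Even j) : 0 < goldenConj ^ j :=
  hj.pow_pos goldenConj_ne_zero

lemma conj_pow_odd {j : ℕ} (hj : Odd j) : goldenConj ^ j < 0 :=
  hj.pow_neg goldenConj_neg

/-- below `φ n` the even conditions are automatic -/
lemma auto_even {n : ℕ} (hn : 1 ≤ n) {v : ℤ} (hv : (v : ℝ) < goldenRatio * n) {e : ℕ}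
    (he : Even e) : (Nat.fib e : ℤ) * v < Nat.fib (e + 1) * n := by
  have h1 := fib_conj e
  have h2 := conj_pow_even he
  have hn' : (1 : ℝ) ≤ n := by exact_mod_cast hn
  have h3 : (0 : ℝ) ≤ Nat.fib e := Nat.cast_nonneg _
  have : (Nat.fib e : ℝ) * v < Nat.fib (e + 1) * n := by nlinarith
  exact_mod_cast this

/-- above `φ n` the odd conditions are automatic -/
lemma auto_odd {n : ℕ} (hn : 1 ≤ n) {v : ℤ} (hv : goldenRatio * n < (v : ℝ)) {o : ℕ}
    (ho : Odd o) : (Nat.fib (o + 1) : ℤ) * n < Nat.fib o * v := by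
  have h1 := fib_conj o
  have h2 := conj_pow_odd ho
  have hn' : (1 : ℝ) ≤ n := by exact_mod_cast hn
  have h3 : (0 : ℝ) ≤ Nat.fib o := Nat.cast_nonneg _
  have : (Nat.fib (o + 1) : ℝ) * n < Nat.fib o * v := by nlinarith
  exact_mod_cast this

/-- survival of the floor at odd level -/
def P (n o : ℕ) : Prop := (Nat.fib (o + 1) : ℤ) * n < Nat.fib o * W n
/-- survival of the ceiling at even level -/
def Q (n e : ℕ) : Prop := (Nat.fib e : ℤ) * (W n + 1) < Nat.fib (e + 1) * n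

lemma P_anti {n o o' : ℕ} (hn : 1 ≤ n) (ho : Odd o) (ho' : Odd o') (h : o ≤ o') (hP : P n o') :
    P n o := by
  obtain ⟨d, rfl⟩ : ∃ d, o' = o + 2 * d := by
    obtain ⟨a, rfl⟩ := ho
    obtain ⟨b, rfl⟩ := ho'
    exact ⟨b - a, by omega⟩
  clear ho'
  induction d with
  | zero => exact hP
  | succ d ih =>
    apply ih (by omega)
    unfold P at hP ⊢
    have hev : Even (o + 2 * d + 1) := by
      obtain ⟨a, rfl⟩ := ho; exact ⟨a + d + 1, by ring⟩
    have h1 := auto_even hn (W_lt n hn) hev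
    have e1 : (Nat.fib (o + 2 * (d + 1)) : ℤ) = Nat.fib (o + 2 * d) + Nat.fib (o + 2 * d + 1) := by
      exact_mod_cast (Nat.fib_add_two (n := o + 2 * d))
    have e2 : (Nat.fib (o + 2 * (d + 1) + 1) : ℤ)
        = Nat.fib (o + 2 * d + 1) + Nat.fib (o + 2 * d + 1 + 1) := by
      exact_mod_cast (Nat.fib_add_two (n := o + 2 * d + 1))
    rw [e1, e2] at hP
    nlinarith

lemma Q_anti {n e e' : ℕ} (hn : 1 ≤ n) (he : Even e) (he' : Even e') (h : e ≤ e') (hQ : Q n e') :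
    Q n e := by
  obtain ⟨d, rfl⟩ : ∃ d, e' = e + 2 * d := by
    obtain ⟨a, rfl⟩ := he
    obtain ⟨b, rfl⟩ := he'
    exact ⟨b - a, by omega⟩
  clear he'
  have hW : goldenRatio * n < ((W n + 1 : ℤ) : ℝ) := by push_cast; exact lt_W_add_one n
  induction d with
  | zero => exact hQ
  | succ d ih =>
    apply ih (by omega)
    unfold Q at hQ ⊢
    have hod : Odd (e + 2 * d + 1) := by
      obtain ⟨a, rfl⟩ := he; exact ⟨a + d, by ring⟩
    have h1 := auto_odd hn hW hod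
    have e1 : (Nat.fib (e + 2 * (d + 1)) : ℤ) = Nat.fib (e + 2 * d) + Nat.fib (e + 2 * d + 1) := by
      exact_mod_cast (Nat.fib_add_two (n := e + 2 * d))
    have e2 : (Nat.fib (e + 2 * (d + 1) + 1) : ℤ)
        = Nat.fib (e + 2 * d + 1) + Nat.fib (e + 2 * d + 1 + 1) := by
      exact_mod_cast (Nat.fib_add_two (n := e + 2 * d + 1))
    rw [e1, e2] at hQ
    nlinarith

lemma feas_W_even {n j : ℕ} (hn : 1 ≤ n) (hj : Even j) : Feas n (W n) j ↔ P n (j + 1) := by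
  rw [feas_iff_even n _ j hj]
  unfold P
  exact ⟨fun h => h.1, fun h => ⟨h, auto_even hn (W_lt n hn) hj⟩⟩

lemma feas_W_odd {n j : ℕ} (hn : 1 ≤ n) (hj : Odd j) : Feas n (W n) j ↔ P n j := by
  rw [feas_iff_odd n _ j hj]
  unfold P
  exact ⟨fun h => h.2, fun h => ⟨auto_even hn (W_lt n hn) hj.add_one, h⟩⟩

lemma feas_W1_even {n j : ℕ} (hn : 1 ≤ n) (hj : Even j) : Feas n (W n + 1) j ↔ Q n j := by
  have hW : goldenRatio * n < ((W n + 1 : ℤ) : ℝ) := by push_cast; exact lt_W_add_one n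
  rw [feas_iff_even n _ j hj]
  unfold Q
  exact ⟨fun h => h.2, fun h => ⟨auto_odd hn hW hj.add_one, h⟩⟩

lemma feas_W1_odd {n j : ℕ} (hn : 1 ≤ n) (hj : Odd j) : Feas n (W n + 1) j ↔ Q n (j + 1) := by
  have hW : goldenRatio * n < ((W n + 1 : ℤ) : ℝ) := by push_cast; exact lt_W_add_one n
  rw [feas_iff_odd n _ j hj]
  unfold Q
  exact ⟨fun h => h.1, fun h => ⟨h, auto_odd hn hW hj⟩⟩

/-- any feasible `v` can be replaced by the floor or the ceiling -/
lemma feas_W {n : ℕ} (hn : 1 ≤ n) {v : ℤ} {j : ℕ} (h : Feas n v j) :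
    Feas n (W n) j ∨ Feas n (W n + 1) j := by
  rcases le_or_gt v (W n) with hv | hv
  · left
    rcases Nat.even_or_odd j with hj | hj
    · rw [feas_W_even hn hj]
      rw [feas_iff_even n _ j hj] at h
      unfold P
      have h3 : (0 : ℤ) ≤ Nat.fib (j + 1) := by positivity
      nlinarith [h.1]
    · rw [feas_W_odd hn hj]
      rw [feas_iff_odd n _ j hj] at h
      unfold P
      have h3 : (0 : ℤ) ≤ Nat.fib j := by positivity
      nlinarith [h.2]
  · right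
    have hv' : W n + 1 ≤ v := hv
    rcases Nat.even_or_odd j with hj | hj
    · rw [feas_W1_even hn hj]
      rw [feas_iff_even n _ j hj] at h
      unfold Q
      have h3 : (0 : ℤ) ≤ Nat.fib j := by positivity
      nlinarith [h.2]
    · rw [feas_W1_odd hn hj]
      rw [feas_iff_odd n _ j hj] at h
      unfold Q
      have h3 : (0 : ℤ) ≤ Nat.fib (j + 1) := by positivity
      nlinarith [h.1]

lemma w_ge (a b : ℕ) (ha : 1 ≤ a) (hb : 1 ≤ b) (k : ℕ) : k ≤ w a b (k + 1) ∧ k + 1 ≤ w a b (k + 2) := by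
  induction k with
  | zero => simp [w]; omega
  | succ k ih =>
    refine ⟨ih.2, ?_⟩
    show k + 2 ≤ w a b (k + 2) + w a b (k + 1)
    have : 1 ≤ w a b (k + 1) := by
      cases k with
      | zero => simp [w]; exact ha
      | succ k => have := ih.1; omega
    omega

lemma s_spec {n : ℕ} (hn : 2 ≤ n) : ∃ J, s n = J + 2 ∧ (Feas n (W n) J ∨ Feas n (W n + 1) J) ∧
    ∀ j, (Feas n (W n) j ∨ Feas n (W n + 1) j) → j ≤ J := by
  have hn1 : 1 ≤ n := by omega
  have hbdd : BddAbove {k | 1 ≤ k ∧ ∃ a b : ℕ, 1 ≤ a ∧ 1 ≤ b ∧ w a b k = n} := by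
    refine ⟨n + 1, ?_⟩
    rintro k ⟨hk, a, b, ha, hb, h⟩
    obtain ⟨k, rfl⟩ : ∃ k', k = k' + 1 := ⟨k - 1, by omega⟩
    have := (w_ge a b ha hb k).1
    omega
  have hmem2 : (2 : ℕ) ∈ {k | 1 ≤ k ∧ ∃ a b : ℕ, 1 ≤ a ∧ 1 ≤ b ∧ w a b k = n} :=
    ⟨by omega, 1, n, le_rfl, hn1, rfl⟩
  have hs := Nat.sSup_mem ⟨2, hmem2⟩ hbdd
  have hge : 2 ≤ s n := le_csSup hbdd hmem2
  obtain ⟨J, hJ⟩ : ∃ J, s n = J + 2 := ⟨s n - 2, by omega⟩
  refine ⟨J, hJ, ?_, ?_⟩
  · obtain ⟨_, a, b, ha, hb, h⟩ := hs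
    change w a b (s n) = n at h
    rw [hJ] at h
    exact feas_W hn1 (v := (w a b (J + 3) : ℤ)) ⟨a, b, ha, hb, h, rfl⟩
  · intro j hj
    have : j + 2 ∈ {k | 1 ≤ k ∧ ∃ a b : ℕ, 1 ≤ a ∧ 1 ≤ b ∧ w a b k = n} := by
      rcases hj with ⟨a, b, ha, hb, h, _⟩ | ⟨a, b, ha, hb, h, _⟩
      · exact ⟨by omega, a, b, ha, hb, h⟩
      · exact ⟨by omega, a, b, ha, hb, h⟩
    have h2 : j + 2 ≤ s n := le_csSup hbdd this
    omega

theorem down_iff {n : ℕ} : Down n ↔ 2 ≤ n ∧ ∃ o, Odd o ∧ P n o ∧ ¬ Q n (o + 1) := by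
  unfold Down
  constructor
  · rintro ⟨hn, a, b, ha, hb, h1, h2⟩
    refine ⟨hn, ?_⟩
    have hn1 : 1 ≤ n := by omega
    obtain ⟨J, hJ, _, hmax⟩ := s_spec hn
    rw [hJ] at h1 h2
    have hF : Feas n (W n) J := ⟨a, b, ha, hb, h1, h2⟩
    rcases Nat.even_or_odd J with hj | hj
    · exfalso
      have h3 := (feas_W_even hn1 hj).1 hF
      have h4 := (feas_W_odd hn1 hj.add_one).2 h3
      have := hmax (J + 1) (Or.inl h4)
      omega
    · refine ⟨J, hj, (feas_W_odd hn1 hj).1 hF, ?_⟩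
      intro hQ
      have h4 := (feas_W1_even hn1 hj.add_one).2 hQ
      have := hmax (J + 1) (Or.inr h4)
      omega
  · rintro ⟨hn, o, ho, hP, hQ⟩
    have hn1 : 1 ≤ n := by omega
    refine ⟨hn, ?_⟩
    obtain ⟨J, hJ, hF, hmax⟩ := s_spec hn
    have hoJ : o ≤ J := hmax o (Or.inl ((feas_W_odd hn1 ho).2 hP))
    have hFW : Feas n (W n) J := by
      rcases hF with hF | hF
      · exact hF
      · exfalso
        apply hQ
        rcases Nat.even_or_odd J with hj | hj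
        · have h3 := (feas_W1_even hn1 hj).1 hF
          have hne : o ≠ J := by rintro rfl; exact (Nat.not_even_iff_odd.2 ho) hj
          exact Q_anti hn1 ho.add_one hj (by omega) h3
        · have h3 := (feas_W1_odd hn1 hj).1 hF
          exact Q_anti hn1 ho.add_one hj.add_one (by omega) h3
    obtain ⟨a, b, ha, hb, h1, h2⟩ := hFW
    rw [hJ]
    exact ⟨a, b, ha, hb, h1, h2⟩

theorem up_iff {n : ℕ} : Up n ↔ 2 ≤ n ∧ ∃ e, Even e ∧ Q n e ∧ ¬ P n (e + 1) := by
  unfold Up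
  constructor
  · rintro ⟨hn, a, b, ha, hb, h1, h2⟩
    refine ⟨hn, ?_⟩
    have hn1 : 1 ≤ n := by omega
    rw [ceil_eq n hn1] at h2
    obtain ⟨J, hJ, _, hmax⟩ := s_spec hn
    rw [hJ] at h1 h2
    have hF : Feas n (W n + 1) J := ⟨a, b, ha, hb, h1, h2⟩
    rcases Nat.even_or_odd J with hj | hj
    · refine ⟨J, hj, (feas_W1_even hn1 hj).1 hF, ?_⟩
      intro hP
      have h4 := (feas_W_odd hn1 hj.add_one).2 hP
      have := hmax (J + 1) (Or.inl h4)
      omega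
    · exfalso
      have h3 := (feas_W1_odd hn1 hj).1 hF
      have h4 := (feas_W1_even hn1 hj.add_one).2 h3
      have := hmax (J + 1) (Or.inr h4)
      omega
  · rintro ⟨hn, e, he, hQ, hP⟩
    have hn1 : 1 ≤ n := by omega
    refine ⟨hn, ?_⟩
    rw [ceil_eq n hn1]
    obtain ⟨J, hJ, hF, hmax⟩ := s_spec hn
    have heJ : e ≤ J := hmax e (Or.inr ((feas_W1_even hn1 he).2 hQ))
    have hFW : Feas n (W n + 1) J := by
      rcases hF with hF | hF
      · exfalso
        apply hP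
        rcases Nat.even_or_odd J with hj | hj
        · have h3 := (feas_W_even hn1 hj).1 hF
          exact P_anti hn1 he.add_one hj.add_one (by omega) h3
        · have h3 := (feas_W_odd hn1 hj).1 hF
          have hne : e ≠ J := by rintro rfl; exact (Nat.not_even_iff_odd.2 hj) he
          exact P_anti hn1 he.add_one hj (by omega) h3
      · exact hF
    obtain ⟨a, b, ha, hb, h1, h2⟩ := hFW
    rw [hJ]
    exact ⟨a, b, ha, hb, h1, h2⟩

lemma not_both {n : ℕ} (hd : Down n) (hu : Up n) : False := by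
  obtain ⟨hn, o, ho, hP, hQ⟩ := down_iff.1 hd
  obtain ⟨_, e, he, hQ', hP'⟩ := up_iff.1 hu
  have hn1 : 1 ≤ n := by omega
  rcases lt_trichotomy o e with h | h | h
  · exact hQ (Q_anti hn1 ho.add_one he (by omega) hQ')
  · subst h; exact (Nat.not_even_iff_odd.2 ho) he
  · exact hP' (P_anti hn1 he.add_one ho (by omega) hP)

end Pool.Agent.V11124.FW
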