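import Mathlib

/-! Fibonacci walks, slow walks, down- and up-integers, and higher order gaps. -/

namespace Pool.Agent.V11124.FW

/-- `w a b k = w_k(a,b)` for `k ≥ 1`: `w_1 = a`, `w_2 = b`, `w_{k+2} = w_{k+1} + w_k`. -/
def w (a b : ℕ) : ℕ → ℕ
  | 0 => 0
  | 1 => a
  | 2 => b
  | (k + 3) => w a b (k + 2) + w a b (k + 1)

/-- `s(n)`: the largest index `k ≥ 1` with `w_k(a,b) = n` for some positive `a, b`. -/
noncomputable def s (n : ℕ) : ℕ :=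
  sSup {k | 1 ≤ k ∧ ∃ a b : ℕ, 1 ≤ a ∧ 1 ≤ b ∧ w a b k = n}

/-- Down-integers: `n ≥ 2` and some `n`-slow walk has `w_{s(n)+1} = ⌊φ n⌋`. -/
def Down (n : ℕ) : Prop :=
  2 ≤ n ∧ ∃ a b : ℕ, 1 ≤ a ∧ 1 ≤ b ∧ w a b (s n) = n ∧
    (w a b (s n + 1) : ℤ) = ⌊Real.goldenRatio * n⌋

/-- Up-integers: `n ≥ 2` and some `n`-slow walk has `w_{s(n)+1} = ⌈φ n⌉`. -/
def Up (n : ℕ) : Prop :=
  2 ≤ n ∧ ∃ a b : ℕ, 1 ≤ a ∧ 1 ≤ b ∧ w a b (s n) = n ∧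
    (w a b (s n + 1) : ℤ) = ⌈Real.goldenRatio * n⌉

/-- The set `{x_{k+l} - x_k : k ≥ 1}` for the increasing enumeration `x_1 < x_2 < ⋯` of
`{n | p n}` (`Nat.nth p k` is `x_{k+1}`). -/
def gaps (p : ℕ → Prop) (l : ℕ) : Set ℕ := {g | ∃ k, g = Nat.nth p (k + l) - Nat.nth p k}

end Pool.Agent.V11124.FW
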