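import Mathlib

set_option linter.all false

namespace Pool.Agent.V11124.FW

/-- pattern hypotheses -/
structure PH (φ x τ : ℝ) (p : ℕ → Prop) : Prop where
  lo : ∀ i : ℕ, i ≤ 13 → Int.fract (x + (i : ℝ) * φ) < τ - 0.016 → p i
  hi : ∀ i : ℕ, i ≤ 13 → p i → Int.fract (x + (i : ℝ) * φ) ≤ τ + 0.016

lemma PH.use {φ x τ : ℝ} {p : ℕ → Prop} (h : PH φ x τ p) (i : ℕ) (hi : i ≤ 13) (k : ℤ)
    (h1 : (k : ℝ) ≤ x + i * φ) (h2 : x + i * φ < k + 1) :
    (¬ p i → τ - 0.016 ≤ x + i * φ - k) ∧ (p i → x + i * φ - k ≤ τ + 0.016) := by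
  have hf : Int.fract (x + i * φ) = x + i * φ - k := by
    rw [Int.fract_eq_iff]
    exact ⟨by linarith, by linarith, k, by ring⟩
  constructor
  · intro hn
    by_contra hc
    push Not at hc
    exact hn (h.lo i hi (by rw [hf]; exact hc))
  · intro hp
    rw [← hf]; exact h.hi i hi hp

/-- `g` is the third element after `0` satisfying `p` -/
def Third (p : ℕ → Prop) (g : ℕ) : Prop :=
  ∃ i1 i2 : ℕ, 0 < i1 ∧ i1 < i2 ∧ i2 < g ∧
    p g ∧ p i1 ∧ p i2 ∧ ∀ i, 0 < i → i < g → p i → i = i1 ∨ i = i2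

/-- the third element after `0` satisfying `p` is in the list -/
def Good3 (p : ℕ → Prop) : Prop :=
  ∃ g ∈ ({3, 4, 5, 6, 7, 8, 10, 11, 13} : Set ℕ), Third p g

lemma leaf {p : ℕ → Prop} (i1 i2 g : ℕ) (hg : g ∈ ({3, 4, 5, 6, 7, 8, 10, 11, 13} : Set ℕ))
    (h1 : 0 < i1) (h2 : i1 < i2) (h3 : i2 < g) (pg : p g) (p1 : p i1) (p2 : p i2)
    (h : ∀ i, 0 < i → i < g → p i → i = i1 ∨ i = i2) : Good3 p :=
  ⟨g, hg, i1, i2, h1, h2, h3, pg, p1, p2, h⟩

lemma gap0 {φ x τ : ℝ} (φ1 : 1.618033 < φ) (φ2 : φ < 1.618034) (hτ1 : 0.27 ≤ τ)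
    (hτ2 : τ ≤ 0.73) {p : ℕ → Prop} (hp : PH φ x τ p) (h0 : p 0)
    (ha : 0 ≤ x) (hb : x < 13 - 8 * φ) : Good3 p := by
  obtain ⟨-, t0⟩ := hp.use 0 (by norm_num) 0 (by norm_num; linarith) (by norm_num; linarith)
  have t0 := t0 h0
  norm_num at t0
  obtain ⟨f1, g1⟩ := hp.use 1 (by norm_num) 1 (by norm_num; linarith) (by norm_num; linarith)
  obtain ⟨f2, g2⟩ := hp.use 2 (by norm_num) 3 (by norm_num; linarith) (by norm_num; linarith)
  obtain ⟨f3, g3⟩ := hp.use 3 (by norm_num) 4 (by norm_num; linarith) (by norm_num; linarith)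
  obtain ⟨f4, g4⟩ := hp.use 4 (by norm_num) 6 (by norm_num; linarith) (by norm_num; linarith)
  obtain ⟨f5, g5⟩ := hp.use 5 (by norm_num) 8 (by norm_num; linarith) (by norm_num; linarith)
  obtain ⟨f6, g6⟩ := hp.use 6 (by norm_num) 9 (by norm_num; linarith) (by norm_num; linarith)
  obtain ⟨f7, g7⟩ := hp.use 7 (by norm_num) 11 (by norm_num; linarith) (by norm_num; linarith)
  obtain ⟨f8, g8⟩ := hp.use 8 (by norm_num) 12 (by norm_num; linarith) (by norm_num; linarith)
  obtain ⟨f9, g9⟩ := hp.use 9 (by norm_num) 14 (by norm_num; linarith) (by norm_num; linarith)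
  obtain ⟨f10, g10⟩ := hp.use 10 (by norm_num) 16 (by norm_num; linarith) (by norm_num; linarith)
  obtain ⟨f11, g11⟩ := hp.use 11 (by norm_num) 17 (by norm_num; linarith) (by norm_num; linarith)
  obtain ⟨f12, g12⟩ := hp.use 12 (by norm_num) 19 (by norm_num; linarith) (by norm_num; linarith)
  obtain ⟨f13, g13⟩ := hp.use 13 (by norm_num) 21 (by norm_num; linarith) (by norm_num; linarith)
  norm_num at f1 g1 f2 g2 f3 g3 f4 g4 f5 g5 f6 g6 f7 g7 f8 g8 f9 g9 f10 g10 f11 g11 f12 g12 f13 g13
  by_cases q1 : p 1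
  · have t1 := g1 q1
    have q2 : p 2 := by by_contra hc; have := f2 hc; linarith
    have t2 := g2 q2
    have q3 : ¬ p 3 := by intro hc; have := g3 hc; linarith
    have t3 := f3 q3
    have q4 : p 4 := by by_contra hc; have := f4 hc; linarith
    have t4 := g4 q4
    exact leaf 1 2 4 (by norm_num) (by norm_num) (by norm_num) (by norm_num) q4 q1 q2 (by
      intro i hi1 hi2 hp; interval_cases i <;> first | exact Or.inl rfl | exact Or.inr rfl | (exfalso; revert hp; assumption))
  · have t1 := f1 q1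
    by_cases q2 : p 2
    · have t2 := g2 q2
      have q3 : ¬ p 3 := by intro hc; have := g3 hc; linarith
      have t3 := f3 q3
      by_cases q4 : p 4
      · have t4 := g4 q4
        have q5 : p 5 := by by_contra hc; have := f5 hc; linarith
        have t5 := g5 q5
        exact leaf 2 4 5 (by norm_num) (by norm_num) (by norm_num) (by norm_num) q5 q2 q4 (by
          intro i hi1 hi2 hp; interval_cases i <;> first | exact Or.inl rfl | exact Or.inr rfl | (exfalso; revert hp; assumption))
      · have t4 := f4 q4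
        have q5 : p 5 := by by_contra hc; have := f5 hc; linarith
        have t5 := g5 q5
        have q6 : ¬ p 6 := by intro hc; have := g6 hc; linarith
        have t6 := f6 q6
        by_cases q7 : p 7
        · have t7 := g7 q7
          exact leaf 2 5 7 (by norm_num) (by norm_num) (by norm_num) (by norm_num) q7 q2 q5 (by
            intro i hi1 hi2 hp; interval_cases i <;> first | exact Or.inl rfl | exact Or.inr rfl | (exfalso; revert hp; assumption))
        · have t7 := f7 q7
          have q8 : ¬ p 8 := by intro hc; have := g8 hc; linarith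
          have t8 := f8 q8
          have q9 : ¬ p 9 := by intro hc; have := g9 hc; linarith
          have t9 := f9 q9
          have q10 : p 10 := by by_contra hc; have := f10 hc; linarith
          have t10 := g10 q10
          exact leaf 2 5 10 (by norm_num) (by norm_num) (by norm_num) (by norm_num) q10 q2 q5 (by
            intro i hi1 hi2 hp; interval_cases i <;> first | exact Or.inl rfl | exact Or.inr rfl | (exfalso; revert hp; assumption))
    · have t2 := f2 q2
      have q3 : ¬ p 3 := by intro hc; have := g3 hc; linarith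
      have t3 := f3 q3
      have q4 : ¬ p 4 := by intro hc; have := g4 hc; linarith
      have t4 := f4 q4
      have q5 : p 5 := by by_contra hc; have := f5 hc; linarith
      have t5 := g5 q5
      have q6 : ¬ p 6 := by intro hc; have := g6 hc; linarith
      have t6 := f6 q6
      have q7 : ¬ p 7 := by intro hc; have := g7 hc; linarith
      have t7 := f7 q7
      have q8 : ¬ p 8 := by intro hc; have := g8 hc; linarith
      have t8 := f8 q8
      have q9 : ¬ p 9 := by intro hc; have := g9 hc; linarith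
      have t9 := f9 q9
      have q10 : p 10 := by by_contra hc; have := f10 hc; linarith
      have t10 := g10 q10
      have q11 : ¬ p 11 := by intro hc; have := g11 hc; linarith
      have t11 := f11 q11
      have q12 : ¬ p 12 := by intro hc; have := g12 hc; linarith
      have t12 := f12 q12
      have q13 : p 13 := by by_contra hc; have := f13 hc; linarith
      have t13 := g13 q13
      exact leaf 5 10 13 (by norm_num) (by norm_num) (by norm_num) (by norm_num) q13 q5 q10 (by
        intro i hi1 hi2 hp; interval_cases i <;> first | exact Or.inl rfl | exact Or.inr rfl | (exfalso; revert hp; assumption))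

lemma gap1 {φ x τ : ℝ} (φ1 : 1.618033 < φ) (φ2 : φ < 1.618034) (hτ1 : 0.27 ≤ τ)
    (hτ2 : τ ≤ 0.73) {p : ℕ → Prop} (hp : PH φ x τ p) (h0 : p 0)
    (ha : 13 - 8 * φ ≤ x) (hb : x < 5 - 3 * φ) : Good3 p := by
  obtain ⟨-, t0⟩ := hp.use 0 (by norm_num) 0 (by norm_num; linarith) (by norm_num; linarith)
  have t0 := t0 h0
  norm_num at t0
  obtain ⟨f1, g1⟩ := hp.use 1 (by norm_num) 1 (by norm_num; linarith) (by norm_num; linarith)
  obtain ⟨f2, g2⟩ := hp.use 2 (by norm_num) 3 (by norm_num; linarith) (by norm_num; linarith)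
  obtain ⟨f3, g3⟩ := hp.use 3 (by norm_num) 4 (by norm_num; linarith) (by norm_num; linarith)
  obtain ⟨f4, g4⟩ := hp.use 4 (by norm_num) 6 (by norm_num; linarith) (by norm_num; linarith)
  obtain ⟨f5, g5⟩ := hp.use 5 (by norm_num) 8 (by norm_num; linarith) (by norm_num; linarith)
  obtain ⟨f6, g6⟩ := hp.use 6 (by norm_num) 9 (by norm_num; linarith) (by norm_num; linarith)
  obtain ⟨f7, g7⟩ := hp.use 7 (by norm_num) 11 (by norm_num; linarith) (by norm_num; linarith)
  obtain ⟨f8, g8⟩ := hp.use 8 (by norm_num) 13 (by norm_num; linarith) (by norm_num; linarith)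
  obtain ⟨f9, g9⟩ := hp.use 9 (by norm_num) 14 (by norm_num; linarith) (by norm_num; linarith)
  obtain ⟨f10, g10⟩ := hp.use 10 (by norm_num) 16 (by norm_num; linarith) (by norm_num; linarith)
  obtain ⟨f11, g11⟩ := hp.use 11 (by norm_num) 17 (by norm_num; linarith) (by norm_num; linarith)
  obtain ⟨f12, g12⟩ := hp.use 12 (by norm_num) 19 (by norm_num; linarith) (by norm_num; linarith)
  obtain ⟨f13, g13⟩ := hp.use 13 (by norm_num) 21 (by norm_num; linarith) (by norm_num; linarith)
  norm_num at f1 g1 f2 g2 f3 g3 f4 g4 f5 g5 f6 g6 f7 g7 f8 g8 f9 g9 f10 g10 f11 g11 f12 g12 f13 g13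
  by_cases q1 : p 1
  · have t1 := g1 q1
    have q2 : p 2 := by by_contra hc; have := f2 hc; linarith
    have t2 := g2 q2
    have q3 : ¬ p 3 := by intro hc; have := g3 hc; linarith
    have t3 := f3 q3
    have q4 : p 4 := by by_contra hc; have := f4 hc; linarith
    have t4 := g4 q4
    exact leaf 1 2 4 (by norm_num) (by norm_num) (by norm_num) (by norm_num) q4 q1 q2 (by
      intro i hi1 hi2 hp; interval_cases i <;> first | exact Or.inl rfl | exact Or.inr rfl | (exfalso; revert hp; assumption))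
  · have t1 := f1 q1
    by_cases q2 : p 2
    · have t2 := g2 q2
      have q3 : ¬ p 3 := by intro hc; have := g3 hc; linarith
      have t3 := f3 q3
      by_cases q4 : p 4
      · have t4 := g4 q4
        have q5 : p 5 := by by_contra hc; have := f5 hc; linarith
        have t5 := g5 q5
        exact leaf 2 4 5 (by norm_num) (by norm_num) (by norm_num) (by norm_num) q5 q2 q4 (by
          intro i hi1 hi2 hp; interval_cases i <;> first | exact Or.inl rfl | exact Or.inr rfl | (exfalso; revert hp; assumption))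
      · have t4 := f4 q4
        have q5 : p 5 := by by_contra hc; have := f5 hc; linarith
        have t5 := g5 q5
        have q6 : ¬ p 6 := by intro hc; have := g6 hc; linarith
        have t6 := f6 q6
        by_cases q7 : p 7
        · have t7 := g7 q7
          exact leaf 2 5 7 (by norm_num) (by norm_num) (by norm_num) (by norm_num) q7 q2 q5 (by
            intro i hi1 hi2 hp; interval_cases i <;> first | exact Or.inl rfl | exact Or.inr rfl | (exfalso; revert hp; assumption))
        · have t7 := f7 q7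
          have q8 : p 8 := by by_contra hc; have := f8 hc; linarith
          have t8 := g8 q8
          exact leaf 2 5 8 (by norm_num) (by norm_num) (by norm_num) (by norm_num) q8 q2 q5 (by
            intro i hi1 hi2 hp; interval_cases i <;> first | exact Or.inl rfl | exact Or.inr rfl | (exfalso; revert hp; assumption))
    · have t2 := f2 q2
      have q3 : ¬ p 3 := by intro hc; have := g3 hc; linarith
      have t3 := f3 q3
      have q4 : ¬ p 4 := by intro hc; have := g4 hc; linarith
      have t4 := f4 q4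
      have q5 : p 5 := by by_contra hc; have := f5 hc; linarith
      have t5 := g5 q5
      have q6 : ¬ p 6 := by intro hc; have := g6 hc; linarith
      have t6 := f6 q6
      have q7 : ¬ p 7 := by intro hc; have := g7 hc; linarith
      have t7 := f7 q7
      have q8 : p 8 := by by_contra hc; have := f8 hc; linarith
      have t8 := g8 q8
      have q9 : ¬ p 9 := by intro hc; have := g9 hc; linarith
      have t9 := f9 q9
      by_cases q10 : p 10
      · have t10 := g10 q10
        exact leaf 5 8 10 (by norm_num) (by norm_num) (by norm_num) (by norm_num) q10 q5 q8 (by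
          intro i hi1 hi2 hp; interval_cases i <;> first | exact Or.inl rfl | exact Or.inr rfl | (exfalso; revert hp; assumption))
      · have t10 := f10 q10
        have q11 : ¬ p 11 := by intro hc; have := g11 hc; linarith
        have t11 := f11 q11
        have q12 : ¬ p 12 := by intro hc; have := g12 hc; linarith
        have t12 := f12 q12
        have q13 : p 13 := by by_contra hc; have := f13 hc; linarith
        have t13 := g13 q13
        exact leaf 5 8 13 (by norm_num) (by norm_num) (by norm_num) (by norm_num) q13 q5 q8 (by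
          intro i hi1 hi2 hp; interval_cases i <;> first | exact Or.inl rfl | exact Or.inr rfl | (exfalso; revert hp; assumption))

lemma gap2 {φ x τ : ℝ} (φ1 : 1.618033 < φ) (φ2 : φ < 1.618034) (hτ1 : 0.27 ≤ τ)
    (hτ2 : τ ≤ 0.73) {p : ℕ → Prop} (hp : PH φ x τ p) (h0 : p 0)
    (ha : 5 - 3 * φ ≤ x) (hb : x < 18 - 11 * φ) : Good3 p := by
  obtain ⟨-, t0⟩ := hp.use 0 (by norm_num) 0 (by norm_num; linarith) (by norm_num; linarith)
  have t0 := t0 h0
  norm_num at t0
  obtain ⟨f1, g1⟩ := hp.use 1 (by norm_num) 1 (by norm_num; linarith) (by norm_num; linarith)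
  obtain ⟨f2, g2⟩ := hp.use 2 (by norm_num) 3 (by norm_num; linarith) (by norm_num; linarith)
  obtain ⟨f3, g3⟩ := hp.use 3 (by norm_num) 5 (by norm_num; linarith) (by norm_num; linarith)
  obtain ⟨f4, g4⟩ := hp.use 4 (by norm_num) 6 (by norm_num; linarith) (by norm_num; linarith)
  obtain ⟨f5, g5⟩ := hp.use 5 (by norm_num) 8 (by norm_num; linarith) (by norm_num; linarith)
  obtain ⟨f6, g6⟩ := hp.use 6 (by norm_num) 9 (by norm_num; linarith) (by norm_num; linarith)
  obtain ⟨f7, g7⟩ := hp.use 7 (by norm_num) 11 (by norm_num; linarith) (by norm_num; linarith)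
  obtain ⟨f8, g8⟩ := hp.use 8 (by norm_num) 13 (by norm_num; linarith) (by norm_num; linarith)
  obtain ⟨f9, g9⟩ := hp.use 9 (by norm_num) 14 (by norm_num; linarith) (by norm_num; linarith)
  obtain ⟨f10, g10⟩ := hp.use 10 (by norm_num) 16 (by norm_num; linarith) (by norm_num; linarith)
  obtain ⟨f11, g11⟩ := hp.use 11 (by norm_num) 17 (by norm_num; linarith) (by norm_num; linarith)
  obtain ⟨f12, g12⟩ := hp.use 12 (by norm_num) 19 (by norm_num; linarith) (by norm_num; linarith)
  obtain ⟨f13, g13⟩ := hp.use 13 (by norm_num) 21 (by norm_num; linarith) (by norm_num; linarith)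
  norm_num at f1 g1 f2 g2 f3 g3 f4 g4 f5 g5 f6 g6 f7 g7 f8 g8 f9 g9 f10 g10 f11 g11 f12 g12 f13 g13
  have q1 : ¬ p 1 := by intro hc; have := g1 hc; linarith
  have t1 := f1 q1
  by_cases q2 : p 2
  · have t2 := g2 q2
    have q3 : p 3 := by by_contra hc; have := f3 hc; linarith
    have t3 := g3 q3
    by_cases q4 : p 4
    · have t4 := g4 q4
      exact leaf 2 3 4 (by norm_num) (by norm_num) (by norm_num) (by norm_num) q4 q2 q3 (by
        intro i hi1 hi2 hp; interval_cases i <;> first | exact Or.inl rfl | exact Or.inr rfl | (exfalso; revert hp; assumption))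
    · have t4 := f4 q4
      have q5 : p 5 := by by_contra hc; have := f5 hc; linarith
      have t5 := g5 q5
      exact leaf 2 3 5 (by norm_num) (by norm_num) (by norm_num) (by norm_num) q5 q2 q3 (by
        intro i hi1 hi2 hp; interval_cases i <;> first | exact Or.inl rfl | exact Or.inr rfl | (exfalso; revert hp; assumption))
  · have t2 := f2 q2
    have q3 : p 3 := by by_contra hc; have := f3 hc; linarith
    have t3 := g3 q3
    have q4 : ¬ p 4 := by intro hc; have := g4 hc; linarith
    have t4 := f4 q4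
    by_cases q5 : p 5
    · have t5 := g5 q5
      have q6 : ¬ p 6 := by intro hc; have := g6 hc; linarith
      have t6 := f6 q6
      have q7 : ¬ p 7 := by intro hc; have := g7 hc; linarith
      have t7 := f7 q7
      have q8 : p 8 := by by_contra hc; have := f8 hc; linarith
      have t8 := g8 q8
      exact leaf 3 5 8 (by norm_num) (by norm_num) (by norm_num) (by norm_num) q8 q3 q5 (by
        intro i hi1 hi2 hp; interval_cases i <;> first | exact Or.inl rfl | exact Or.inr rfl | (exfalso; revert hp; assumption))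
    · have t5 := f5 q5
      have q6 : ¬ p 6 := by intro hc; have := g6 hc; linarith
      have t6 := f6 q6
      have q7 : ¬ p 7 := by intro hc; have := g7 hc; linarith
      have t7 := f7 q7
      have q8 : p 8 := by by_contra hc; have := f8 hc; linarith
      have t8 := g8 q8
      have q9 : ¬ p 9 := by intro hc; have := g9 hc; linarith
      have t9 := f9 q9
      have q10 : ¬ p 10 := by intro hc; have := g10 hc; linarith
      have t10 := f10 q10
      have q11 : ¬ p 11 := by intro hc; have := g11 hc; linarith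
      have t11 := f11 q11
      have q12 : ¬ p 12 := by intro hc; have := g12 hc; linarith
      have t12 := f12 q12
      have q13 : p 13 := by by_contra hc; have := f13 hc; linarith
      have t13 := g13 q13
      exact leaf 3 8 13 (by norm_num) (by norm_num) (by norm_num) (by norm_num) q13 q3 q8 (by
        intro i hi1 hi2 hp; interval_cases i <;> first | exact Or.inl rfl | exact Or.inr rfl | (exfalso; revert hp; assumption))

lemma gap3 {φ x τ : ℝ} (φ1 : 1.618033 < φ) (φ2 : φ < 1.618034) (hτ1 : 0.27 ≤ τ)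
    (hτ2 : τ ≤ 0.73) {p : ℕ → Prop} (hp : PH φ x τ p) (h0 : p 0)
    (ha : 18 - 11 * φ ≤ x) (hb : x < 10 - 6 * φ) : Good3 p := by
  obtain ⟨-, t0⟩ := hp.use 0 (by norm_num) 0 (by norm_num; linarith) (by norm_num; linarith)
  have t0 := t0 h0
  norm_num at t0
  obtain ⟨f1, g1⟩ := hp.use 1 (by norm_num) 1 (by norm_num; linarith) (by norm_num; linarith)
  obtain ⟨f2, g2⟩ := hp.use 2 (by norm_num) 3 (by norm_num; linarith) (by norm_num; linarith)
  obtain ⟨f3, g3⟩ := hp.use 3 (by norm_num) 5 (by norm_num; linarith) (by norm_num; linarith)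
  obtain ⟨f4, g4⟩ := hp.use 4 (by norm_num) 6 (by norm_num; linarith) (by norm_num; linarith)
  obtain ⟨f5, g5⟩ := hp.use 5 (by norm_num) 8 (by norm_num; linarith) (by norm_num; linarith)
  obtain ⟨f6, g6⟩ := hp.use 6 (by norm_num) 9 (by norm_num; linarith) (by norm_num; linarith)
  obtain ⟨f7, g7⟩ := hp.use 7 (by norm_num) 11 (by norm_num; linarith) (by norm_num; linarith)
  obtain ⟨f8, g8⟩ := hp.use 8 (by norm_num) 13 (by norm_num; linarith) (by norm_num; linarith)
  obtain ⟨f9, g9⟩ := hp.use 9 (by norm_num) 14 (by norm_num; linarith) (by norm_num; linarith)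
  obtain ⟨f10, g10⟩ := hp.use 10 (by norm_num) 16 (by norm_num; linarith) (by norm_num; linarith)
  obtain ⟨f11, g11⟩ := hp.use 11 (by norm_num) 18 (by norm_num; linarith) (by norm_num; linarith)
  obtain ⟨f12, g12⟩ := hp.use 12 (by norm_num) 19 (by norm_num; linarith) (by norm_num; linarith)
  obtain ⟨f13, g13⟩ := hp.use 13 (by norm_num) 21 (by norm_num; linarith) (by norm_num; linarith)
  norm_num at f1 g1 f2 g2 f3 g3 f4 g4 f5 g5 f6 g6 f7 g7 f8 g8 f9 g9 f10 g10 f11 g11 f12 g12 f13 g13
  have q1 : ¬ p 1 := by intro hc; have := g1 hc; linarith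
  have t1 := f1 q1
  by_cases q2 : p 2
  · have t2 := g2 q2
    have q3 : p 3 := by by_contra hc; have := f3 hc; linarith
    have t3 := g3 q3
    by_cases q4 : p 4
    · have t4 := g4 q4
      exact leaf 2 3 4 (by norm_num) (by norm_num) (by norm_num) (by norm_num) q4 q2 q3 (by
        intro i hi1 hi2 hp; interval_cases i <;> first | exact Or.inl rfl | exact Or.inr rfl | (exfalso; revert hp; assumption))
    · have t4 := f4 q4
      have q5 : p 5 := by by_contra hc; have := f5 hc; linarith
      have t5 := g5 q5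
      exact leaf 2 3 5 (by norm_num) (by norm_num) (by norm_num) (by norm_num) q5 q2 q3 (by
        intro i hi1 hi2 hp; interval_cases i <;> first | exact Or.inl rfl | exact Or.inr rfl | (exfalso; revert hp; assumption))
  · have t2 := f2 q2
    have q3 : p 3 := by by_contra hc; have := f3 hc; linarith
    have t3 := g3 q3
    have q4 : ¬ p 4 := by intro hc; have := g4 hc; linarith
    have t4 := f4 q4
    by_cases q5 : p 5
    · have t5 := g5 q5
      have q6 : ¬ p 6 := by intro hc; have := g6 hc; linarith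
      have t6 := f6 q6
      have q7 : ¬ p 7 := by intro hc; have := g7 hc; linarith
      have t7 := f7 q7
      have q8 : p 8 := by by_contra hc; have := f8 hc; linarith
      have t8 := g8 q8
      exact leaf 3 5 8 (by norm_num) (by norm_num) (by norm_num) (by norm_num) q8 q3 q5 (by
        intro i hi1 hi2 hp; interval_cases i <;> first | exact Or.inl rfl | exact Or.inr rfl | (exfalso; revert hp; assumption))
    · have t5 := f5 q5
      have q6 : ¬ p 6 := by intro hc; have := g6 hc; linarith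
      have t6 := f6 q6
      have q7 : ¬ p 7 := by intro hc; have := g7 hc; linarith
      have t7 := f7 q7
      have q8 : p 8 := by by_contra hc; have := f8 hc; linarith
      have t8 := g8 q8
      have q9 : ¬ p 9 := by intro hc; have := g9 hc; linarith
      have t9 := f9 q9
      have q10 : ¬ p 10 := by intro hc; have := g10 hc; linarith
      have t10 := f10 q10
      have q11 : p 11 := by by_contra hc; have := f11 hc; linarith
      have t11 := g11 q11
      exact leaf 3 8 11 (by norm_num) (by norm_num) (by norm_num) (by norm_num) q11 q3 q8 (by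
        intro i hi1 hi2 hp; interval_cases i <;> first | exact Or.inl rfl | exact Or.inr rfl | (exfalso; revert hp; assumption))

lemma gap4 {φ x τ : ℝ} (φ1 : 1.618033 < φ) (φ2 : φ < 1.618034) (hτ1 : 0.27 ≤ τ)
    (hτ2 : τ ≤ 0.73) {p : ℕ → Prop} (hp : PH φ x τ p) (h0 : p 0)
    (ha : 10 - 6 * φ ≤ x) (hb : x < 2 - 1 * φ) : Good3 p := by
  obtain ⟨-, t0⟩ := hp.use 0 (by norm_num) 0 (by norm_num; linarith) (by norm_num; linarith)
  have t0 := t0 h0
  norm_num at t0
  obtain ⟨f1, g1⟩ := hp.use 1 (by norm_num) 1 (by norm_num; linarith) (by norm_num; linarith)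
  obtain ⟨f2, g2⟩ := hp.use 2 (by norm_num) 3 (by norm_num; linarith) (by norm_num; linarith)
  obtain ⟨f3, g3⟩ := hp.use 3 (by norm_num) 5 (by norm_num; linarith) (by norm_num; linarith)
  obtain ⟨f4, g4⟩ := hp.use 4 (by norm_num) 6 (by norm_num; linarith) (by norm_num; linarith)
  obtain ⟨f5, g5⟩ := hp.use 5 (by norm_num) 8 (by norm_num; linarith) (by norm_num; linarith)
  obtain ⟨f6, g6⟩ := hp.use 6 (by norm_num) 10 (by norm_num; linarith) (by norm_num; linarith)
  obtain ⟨f7, g7⟩ := hp.use 7 (by norm_num) 11 (by norm_num; linarith) (by norm_num; linarith)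
  obtain ⟨f8, g8⟩ := hp.use 8 (by norm_num) 13 (by norm_num; linarith) (by norm_num; linarith)
  obtain ⟨f9, g9⟩ := hp.use 9 (by norm_num) 14 (by norm_num; linarith) (by norm_num; linarith)
  obtain ⟨f10, g10⟩ := hp.use 10 (by norm_num) 16 (by norm_num; linarith) (by norm_num; linarith)
  obtain ⟨f11, g11⟩ := hp.use 11 (by norm_num) 18 (by norm_num; linarith) (by norm_num; linarith)
  obtain ⟨f12, g12⟩ := hp.use 12 (by norm_num) 19 (by norm_num; linarith) (by norm_num; linarith)
  obtain ⟨f13, g13⟩ := hp.use 13 (by norm_num) 21 (by norm_num; linarith) (by norm_num; linarith)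
  norm_num at f1 g1 f2 g2 f3 g3 f4 g4 f5 g5 f6 g6 f7 g7 f8 g8 f9 g9 f10 g10 f11 g11 f12 g12 f13 g13
  have q1 : ¬ p 1 := by intro hc; have := g1 hc; linarith
  have t1 := f1 q1
  by_cases q2 : p 2
  · have t2 := g2 q2
    have q3 : p 3 := by by_contra hc; have := f3 hc; linarith
    have t3 := g3 q3
    have q4 : ¬ p 4 := by intro hc; have := g4 hc; linarith
    have t4 := f4 q4
    have q5 : p 5 := by by_contra hc; have := f5 hc; linarith
    have t5 := g5 q5
    exact leaf 2 3 5 (by norm_num) (by norm_num) (by norm_num) (by norm_num) q5 q2 q3 (by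
      intro i hi1 hi2 hp; interval_cases i <;> first | exact Or.inl rfl | exact Or.inr rfl | (exfalso; revert hp; assumption))
  · have t2 := f2 q2
    have q3 : p 3 := by by_contra hc; have := f3 hc; linarith
    have t3 := g3 q3
    have q4 : ¬ p 4 := by intro hc; have := g4 hc; linarith
    have t4 := f4 q4
    by_cases q5 : p 5
    · have t5 := g5 q5
      have q6 : p 6 := by by_contra hc; have := f6 hc; linarith
      have t6 := g6 q6
      exact leaf 3 5 6 (by norm_num) (by norm_num) (by norm_num) (by norm_num) q6 q3 q5 (by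
        intro i hi1 hi2 hp; interval_cases i <;> first | exact Or.inl rfl | exact Or.inr rfl | (exfalso; revert hp; assumption))
    · have t5 := f5 q5
      have q6 : p 6 := by by_contra hc; have := f6 hc; linarith
      have t6 := g6 q6
      have q7 : ¬ p 7 := by intro hc; have := g7 hc; linarith
      have t7 := f7 q7
      have q8 : p 8 := by by_contra hc; have := f8 hc; linarith
      have t8 := g8 q8
      exact leaf 3 6 8 (by norm_num) (by norm_num) (by norm_num) (by norm_num) q8 q3 q6 (by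
        intro i hi1 hi2 hp; interval_cases i <;> first | exact Or.inl rfl | exact Or.inr rfl | (exfalso; revert hp; assumption))

lemma gap5 {φ x τ : ℝ} (φ1 : 1.618033 < φ) (φ2 : φ < 1.618034) (hτ1 : 0.27 ≤ τ)
    (hτ2 : τ ≤ 0.73) {p : ℕ → Prop} (hp : PH φ x τ p) (h0 : p 0)
    (ha : 2 - 1 * φ ≤ x) (hb : x < 15 - 9 * φ) : Good3 p := by
  obtain ⟨-, t0⟩ := hp.use 0 (by norm_num) 0 (by norm_num; linarith) (by norm_num; linarith)
  have t0 := t0 h0
  norm_num at t0
  obtain ⟨f1, g1⟩ := hp.use 1 (by norm_num) 2 (by norm_num; linarith) (by norm_num; linarith)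
  obtain ⟨f2, g2⟩ := hp.use 2 (by norm_num) 3 (by norm_num; linarith) (by norm_num; linarith)
  obtain ⟨f3, g3⟩ := hp.use 3 (by norm_num) 5 (by norm_num; linarith) (by norm_num; linarith)
  obtain ⟨f4, g4⟩ := hp.use 4 (by norm_num) 6 (by norm_num; linarith) (by norm_num; linarith)
  obtain ⟨f5, g5⟩ := hp.use 5 (by norm_num) 8 (by norm_num; linarith) (by norm_num; linarith)
  obtain ⟨f6, g6⟩ := hp.use 6 (by norm_num) 10 (by norm_num; linarith) (by norm_num; linarith)
  obtain ⟨f7, g7⟩ := hp.use 7 (by norm_num) 11 (by norm_num; linarith) (by norm_num; linarith)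
  obtain ⟨f8, g8⟩ := hp.use 8 (by norm_num) 13 (by norm_num; linarith) (by norm_num; linarith)
  obtain ⟨f9, g9⟩ := hp.use 9 (by norm_num) 14 (by norm_num; linarith) (by norm_num; linarith)
  obtain ⟨f10, g10⟩ := hp.use 10 (by norm_num) 16 (by norm_num; linarith) (by norm_num; linarith)
  obtain ⟨f11, g11⟩ := hp.use 11 (by norm_num) 18 (by norm_num; linarith) (by norm_num; linarith)
  obtain ⟨f12, g12⟩ := hp.use 12 (by norm_num) 19 (by norm_num; linarith) (by norm_num; linarith)
  obtain ⟨f13, g13⟩ := hp.use 13 (by norm_num) 21 (by norm_num; linarith) (by norm_num; linarith)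
  norm_num at f1 g1 f2 g2 f3 g3 f4 g4 f5 g5 f6 g6 f7 g7 f8 g8 f9 g9 f10 g10 f11 g11 f12 g12 f13 g13
  have q1 : p 1 := by by_contra hc; have := f1 hc; linarith
  have t1 := g1 q1
  by_cases q2 : p 2
  · have t2 := g2 q2
    have q3 : p 3 := by by_contra hc; have := f3 hc; linarith
    have t3 := g3 q3
    exact leaf 1 2 3 (by norm_num) (by norm_num) (by norm_num) (by norm_num) q3 q1 q2 (by
      intro i hi1 hi2 hp; interval_cases i <;> first | exact Or.inl rfl | exact Or.inr rfl | (exfalso; revert hp; assumption))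
  · have t2 := f2 q2
    have q3 : p 3 := by by_contra hc; have := f3 hc; linarith
    have t3 := g3 q3
    have q4 : ¬ p 4 := by intro hc; have := g4 hc; linarith
    have t4 := f4 q4
    by_cases q5 : p 5
    · have t5 := g5 q5
      exact leaf 1 3 5 (by norm_num) (by norm_num) (by norm_num) (by norm_num) q5 q1 q3 (by
        intro i hi1 hi2 hp; interval_cases i <;> first | exact Or.inl rfl | exact Or.inr rfl | (exfalso; revert hp; assumption))
    · have t5 := f5 q5
      have q6 : p 6 := by by_contra hc; have := f6 hc; linarith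
      have t6 := g6 q6
      exact leaf 1 3 6 (by norm_num) (by norm_num) (by norm_num) (by norm_num) q6 q1 q3 (by
        intro i hi1 hi2 hp; interval_cases i <;> first | exact Or.inl rfl | exact Or.inr rfl | (exfalso; revert hp; assumption))

lemma gap6 {φ x τ : ℝ} (φ1 : 1.618033 < φ) (φ2 : φ < 1.618034) (hτ1 : 0.27 ≤ τ)
    (hτ2 : τ ≤ 0.73) {p : ℕ → Prop} (hp : PH φ x τ p) (h0 : p 0)
    (ha : 15 - 9 * φ ≤ x) (hb : x < 7 - 4 * φ) : Good3 p := by
  obtain ⟨-, t0⟩ := hp.use 0 (by norm_num) 0 (by norm_num; linarith) (by norm_num; linarith)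
  have t0 := t0 h0
  norm_num at t0
  obtain ⟨f1, g1⟩ := hp.use 1 (by norm_num) 2 (by norm_num; linarith) (by norm_num; linarith)
  obtain ⟨f2, g2⟩ := hp.use 2 (by norm_num) 3 (by norm_num; linarith) (by norm_num; linarith)
  obtain ⟨f3, g3⟩ := hp.use 3 (by norm_num) 5 (by norm_num; linarith) (by norm_num; linarith)
  obtain ⟨f4, g4⟩ := hp.use 4 (by norm_num) 6 (by norm_num; linarith) (by norm_num; linarith)
  obtain ⟨f5, g5⟩ := hp.use 5 (by norm_num) 8 (by norm_num; linarith) (by norm_num; linarith)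
  obtain ⟨f6, g6⟩ := hp.use 6 (by norm_num) 10 (by norm_num; linarith) (by norm_num; linarith)
  obtain ⟨f7, g7⟩ := hp.use 7 (by norm_num) 11 (by norm_num; linarith) (by norm_num; linarith)
  obtain ⟨f8, g8⟩ := hp.use 8 (by norm_num) 13 (by norm_num; linarith) (by norm_num; linarith)
  obtain ⟨f9, g9⟩ := hp.use 9 (by norm_num) 15 (by norm_num; linarith) (by norm_num; linarith)
  obtain ⟨f10, g10⟩ := hp.use 10 (by norm_num) 16 (by norm_num; linarith) (by norm_num; linarith)
  obtain ⟨f11, g11⟩ := hp.use 11 (by norm_num) 18 (by norm_num; linarith) (by norm_num; linarith)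
  obtain ⟨f12, g12⟩ := hp.use 12 (by norm_num) 19 (by norm_num; linarith) (by norm_num; linarith)
  obtain ⟨f13, g13⟩ := hp.use 13 (by norm_num) 21 (by norm_num; linarith) (by norm_num; linarith)
  norm_num at f1 g1 f2 g2 f3 g3 f4 g4 f5 g5 f6 g6 f7 g7 f8 g8 f9 g9 f10 g10 f11 g11 f12 g12 f13 g13
  have q1 : p 1 := by by_contra hc; have := f1 hc; linarith
  have t1 := g1 q1
  by_cases q2 : p 2
  · have t2 := g2 q2
    have q3 : p 3 := by by_contra hc; have := f3 hc; linarith
    have t3 := g3 q3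
    exact leaf 1 2 3 (by norm_num) (by norm_num) (by norm_num) (by norm_num) q3 q1 q2 (by
      intro i hi1 hi2 hp; interval_cases i <;> first | exact Or.inl rfl | exact Or.inr rfl | (exfalso; revert hp; assumption))
  · have t2 := f2 q2
    have q3 : p 3 := by by_contra hc; have := f3 hc; linarith
    have t3 := g3 q3
    have q4 : ¬ p 4 := by intro hc; have := g4 hc; linarith
    have t4 := f4 q4
    by_cases q5 : p 5
    · have t5 := g5 q5
      exact leaf 1 3 5 (by norm_num) (by norm_num) (by norm_num) (by norm_num) q5 q1 q3 (by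
        intro i hi1 hi2 hp; interval_cases i <;> first | exact Or.inl rfl | exact Or.inr rfl | (exfalso; revert hp; assumption))
    · have t5 := f5 q5
      have q6 : p 6 := by by_contra hc; have := f6 hc; linarith
      have t6 := g6 q6
      exact leaf 1 3 6 (by norm_num) (by norm_num) (by norm_num) (by norm_num) q6 q1 q3 (by
        intro i hi1 hi2 hp; interval_cases i <;> first | exact Or.inl rfl | exact Or.inr rfl | (exfalso; revert hp; assumption))

lemma gap7 {φ x τ : ℝ} (φ1 : 1.618033 < φ) (φ2 : φ < 1.618034) (hτ1 : 0.27 ≤ τ)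
    (hτ2 : τ ≤ 0.73) {p : ℕ → Prop} (hp : PH φ x τ p) (h0 : p 0)
    (ha : 7 - 4 * φ ≤ x) (hb : x < 20 - 12 * φ) : Good3 p := by
  obtain ⟨-, t0⟩ := hp.use 0 (by norm_num) 0 (by norm_num; linarith) (by norm_num; linarith)
  have t0 := t0 h0
  norm_num at t0
  obtain ⟨f1, g1⟩ := hp.use 1 (by norm_num) 2 (by norm_num; linarith) (by norm_num; linarith)
  obtain ⟨f2, g2⟩ := hp.use 2 (by norm_num) 3 (by norm_num; linarith) (by norm_num; linarith)
  obtain ⟨f3, g3⟩ := hp.use 3 (by norm_num) 5 (by norm_num; linarith) (by norm_num; linarith)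
  obtain ⟨f4, g4⟩ := hp.use 4 (by norm_num) 7 (by norm_num; linarith) (by norm_num; linarith)
  obtain ⟨f5, g5⟩ := hp.use 5 (by norm_num) 8 (by norm_num; linarith) (by norm_num; linarith)
  obtain ⟨f6, g6⟩ := hp.use 6 (by norm_num) 10 (by norm_num; linarith) (by norm_num; linarith)
  obtain ⟨f7, g7⟩ := hp.use 7 (by norm_num) 11 (by norm_num; linarith) (by norm_num; linarith)
  obtain ⟨f8, g8⟩ := hp.use 8 (by norm_num) 13 (by norm_num; linarith) (by norm_num; linarith)
  obtain ⟨f9, g9⟩ := hp.use 9 (by norm_num) 15 (by norm_num; linarith) (by norm_num; linarith)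
  obtain ⟨f10, g10⟩ := hp.use 10 (by norm_num) 16 (by norm_num; linarith) (by norm_num; linarith)
  obtain ⟨f11, g11⟩ := hp.use 11 (by norm_num) 18 (by norm_num; linarith) (by norm_num; linarith)
  obtain ⟨f12, g12⟩ := hp.use 12 (by norm_num) 19 (by norm_num; linarith) (by norm_num; linarith)
  obtain ⟨f13, g13⟩ := hp.use 13 (by norm_num) 21 (by norm_num; linarith) (by norm_num; linarith)
  norm_num at f1 g1 f2 g2 f3 g3 f4 g4 f5 g5 f6 g6 f7 g7 f8 g8 f9 g9 f10 g10 f11 g11 f12 g12 f13 g13
  have q1 : p 1 := by by_contra hc; have := f1 hc; linarith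
  have t1 := g1 q1
  have q2 : ¬ p 2 := by intro hc; have := g2 hc; linarith
  have t2 := f2 q2
  have q3 : p 3 := by by_contra hc; have := f3 hc; linarith
  have t3 := g3 q3
  have q4 : p 4 := by by_contra hc; have := f4 hc; linarith
  have t4 := g4 q4
  exact leaf 1 3 4 (by norm_num) (by norm_num) (by norm_num) (by norm_num) q4 q1 q3 (by
    intro i hi1 hi2 hp; interval_cases i <;> first | exact Or.inl rfl | exact Or.inr rfl | (exfalso; revert hp; assumption))

lemma gap8 {φ x τ : ℝ} (φ1 : 1.618033 < φ) (φ2 : φ < 1.618034) (hτ1 : 0.27 ≤ τ)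
    (hτ2 : τ ≤ 0.73) {p : ℕ → Prop} (hp : PH φ x τ p) (h0 : p 0)
    (ha : 20 - 12 * φ ≤ x) (hb : x < 12 - 7 * φ) : Good3 p := by
  obtain ⟨-, t0⟩ := hp.use 0 (by norm_num) 0 (by norm_num; linarith) (by norm_num; linarith)
  have t0 := t0 h0
  norm_num at t0
  obtain ⟨f1, g1⟩ := hp.use 1 (by norm_num) 2 (by norm_num; linarith) (by norm_num; linarith)
  obtain ⟨f2, g2⟩ := hp.use 2 (by norm_num) 3 (by norm_num; linarith) (by norm_num; linarith)
  obtain ⟨f3, g3⟩ := hp.use 3 (by norm_num) 5 (by norm_num; linarith) (by norm_num; linarith)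
  obtain ⟨f4, g4⟩ := hp.use 4 (by norm_num) 7 (by norm_num; linarith) (by norm_num; linarith)
  obtain ⟨f5, g5⟩ := hp.use 5 (by norm_num) 8 (by norm_num; linarith) (by norm_num; linarith)
  obtain ⟨f6, g6⟩ := hp.use 6 (by norm_num) 10 (by norm_num; linarith) (by norm_num; linarith)
  obtain ⟨f7, g7⟩ := hp.use 7 (by norm_num) 11 (by norm_num; linarith) (by norm_num; linarith)
  obtain ⟨f8, g8⟩ := hp.use 8 (by norm_num) 13 (by norm_num; linarith) (by norm_num; linarith)
  obtain ⟨f9, g9⟩ := hp.use 9 (by norm_num) 15 (by norm_num; linarith) (by norm_num; linarith)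
  obtain ⟨f10, g10⟩ := hp.use 10 (by norm_num) 16 (by norm_num; linarith) (by norm_num; linarith)
  obtain ⟨f11, g11⟩ := hp.use 11 (by norm_num) 18 (by norm_num; linarith) (by norm_num; linarith)
  obtain ⟨f12, g12⟩ := hp.use 12 (by norm_num) 20 (by norm_num; linarith) (by norm_num; linarith)
  obtain ⟨f13, g13⟩ := hp.use 13 (by norm_num) 21 (by norm_num; linarith) (by norm_num; linarith)
  norm_num at f1 g1 f2 g2 f3 g3 f4 g4 f5 g5 f6 g6 f7 g7 f8 g8 f9 g9 f10 g10 f11 g11 f12 g12 f13 g13
  have q1 : p 1 := by by_contra hc; have := f1 hc; linarith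
  have t1 := g1 q1
  have q2 : ¬ p 2 := by intro hc; have := g2 hc; linarith
  have t2 := f2 q2
  have q3 : p 3 := by by_contra hc; have := f3 hc; linarith
  have t3 := g3 q3
  have q4 : p 4 := by by_contra hc; have := f4 hc; linarith
  have t4 := g4 q4
  exact leaf 1 3 4 (by norm_num) (by norm_num) (by norm_num) (by norm_num) q4 q1 q3 (by
    intro i hi1 hi2 hp; interval_cases i <;> first | exact Or.inl rfl | exact Or.inr rfl | (exfalso; revert hp; assumption))

lemma gap9 {φ x τ : ℝ} (φ1 : 1.618033 < φ) (φ2 : φ < 1.618034) (hτ1 : 0.27 ≤ τ)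
    (hτ2 : τ ≤ 0.73) {p : ℕ → Prop} (hp : PH φ x τ p) (h0 : p 0)
    (ha : 12 - 7 * φ ≤ x) (hb : x < 4 - 2 * φ) : Good3 p := by
  obtain ⟨-, t0⟩ := hp.use 0 (by norm_num) 0 (by norm_num; linarith) (by norm_num; linarith)
  have t0 := t0 h0
  norm_num at t0
  obtain ⟨f1, g1⟩ := hp.use 1 (by norm_num) 2 (by norm_num; linarith) (by norm_num; linarith)
  obtain ⟨f2, g2⟩ := hp.use 2 (by norm_num) 3 (by norm_num; linarith) (by norm_num; linarith)
  obtain ⟨f3, g3⟩ := hp.use 3 (by norm_num) 5 (by norm_num; linarith) (by norm_num; linarith)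
  obtain ⟨f4, g4⟩ := hp.use 4 (by norm_num) 7 (by norm_num; linarith) (by norm_num; linarith)
  obtain ⟨f5, g5⟩ := hp.use 5 (by norm_num) 8 (by norm_num; linarith) (by norm_num; linarith)
  obtain ⟨f6, g6⟩ := hp.use 6 (by norm_num) 10 (by norm_num; linarith) (by norm_num; linarith)
  obtain ⟨f7, g7⟩ := hp.use 7 (by norm_num) 12 (by norm_num; linarith) (by norm_num; linarith)
  obtain ⟨f8, g8⟩ := hp.use 8 (by norm_num) 13 (by norm_num; linarith) (by norm_num; linarith)
  obtain ⟨f9, g9⟩ := hp.use 9 (by norm_num) 15 (by norm_num; linarith) (by norm_num; linarith)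
  obtain ⟨f10, g10⟩ := hp.use 10 (by norm_num) 16 (by norm_num; linarith) (by norm_num; linarith)
  obtain ⟨f11, g11⟩ := hp.use 11 (by norm_num) 18 (by norm_num; linarith) (by norm_num; linarith)
  obtain ⟨f12, g12⟩ := hp.use 12 (by norm_num) 20 (by norm_num; linarith) (by norm_num; linarith)
  obtain ⟨f13, g13⟩ := hp.use 13 (by norm_num) 21 (by norm_num; linarith) (by norm_num; linarith)
  norm_num at f1 g1 f2 g2 f3 g3 f4 g4 f5 g5 f6 g6 f7 g7 f8 g8 f9 g9 f10 g10 f11 g11 f12 g12 f13 g13
  have q1 : p 1 := by by_contra hc; have := f1 hc; linarith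
  have t1 := g1 q1
  have q2 : ¬ p 2 := by intro hc; have := g2 hc; linarith
  have t2 := f2 q2
  have q3 : p 3 := by by_contra hc; have := f3 hc; linarith
  have t3 := g3 q3
  have q4 : p 4 := by by_contra hc; have := f4 hc; linarith
  have t4 := g4 q4
  exact leaf 1 3 4 (by norm_num) (by norm_num) (by norm_num) (by norm_num) q4 q1 q3 (by
    intro i hi1 hi2 hp; interval_cases i <;> first | exact Or.inl rfl | exact Or.inr rfl | (exfalso; revert hp; assumption))

lemma gap10 {φ x τ : ℝ} (φ1 : 1.618033 < φ) (φ2 : φ < 1.618034) (hτ1 : 0.27 ≤ τ)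
    (hτ2 : τ ≤ 0.73) {p : ℕ → Prop} (hp : PH φ x τ p) (h0 : p 0)
    (ha : 4 - 2 * φ ≤ x) (hb : x < 17 - 10 * φ) : Good3 p := by
  obtain ⟨-, t0⟩ := hp.use 0 (by norm_num) 0 (by norm_num; linarith) (by norm_num; linarith)
  have t0 := t0 h0
  norm_num at t0
  obtain ⟨f1, g1⟩ := hp.use 1 (by norm_num) 2 (by norm_num; linarith) (by norm_num; linarith)
  obtain ⟨f2, g2⟩ := hp.use 2 (by norm_num) 4 (by norm_num; linarith) (by norm_num; linarith)
  obtain ⟨f3, g3⟩ := hp.use 3 (by norm_num) 5 (by norm_num; linarith) (by norm_num; linarith)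
  obtain ⟨f4, g4⟩ := hp.use 4 (by norm_num) 7 (by norm_num; linarith) (by norm_num; linarith)
  obtain ⟨f5, g5⟩ := hp.use 5 (by norm_num) 8 (by norm_num; linarith) (by norm_num; linarith)
  obtain ⟨f6, g6⟩ := hp.use 6 (by norm_num) 10 (by norm_num; linarith) (by norm_num; linarith)
  obtain ⟨f7, g7⟩ := hp.use 7 (by norm_num) 12 (by norm_num; linarith) (by norm_num; linarith)
  obtain ⟨f8, g8⟩ := hp.use 8 (by norm_num) 13 (by norm_num; linarith) (by norm_num; linarith)
  obtain ⟨f9, g9⟩ := hp.use 9 (by norm_num) 15 (by norm_num; linarith) (by norm_num; linarith)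
  obtain ⟨f10, g10⟩ := hp.use 10 (by norm_num) 16 (by norm_num; linarith) (by norm_num; linarith)
  obtain ⟨f11, g11⟩ := hp.use 11 (by norm_num) 18 (by norm_num; linarith) (by norm_num; linarith)
  obtain ⟨f12, g12⟩ := hp.use 12 (by norm_num) 20 (by norm_num; linarith) (by norm_num; linarith)
  obtain ⟨f13, g13⟩ := hp.use 13 (by norm_num) 21 (by norm_num; linarith) (by norm_num; linarith)
  norm_num at f1 g1 f2 g2 f3 g3 f4 g4 f5 g5 f6 g6 f7 g7 f8 g8 f9 g9 f10 g10 f11 g11 f12 g12 f13 g13
  exfalso; linarith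

lemma gap11 {φ x τ : ℝ} (φ1 : 1.618033 < φ) (φ2 : φ < 1.618034) (hτ1 : 0.27 ≤ τ)
    (hτ2 : τ ≤ 0.73) {p : ℕ → Prop} (hp : PH φ x τ p) (h0 : p 0)
    (ha : 17 - 10 * φ ≤ x) (hb : x < 9 - 5 * φ) : Good3 p := by
  obtain ⟨-, t0⟩ := hp.use 0 (by norm_num) 0 (by norm_num; linarith) (by norm_num; linarith)
  have t0 := t0 h0
  norm_num at t0
  obtain ⟨f1, g1⟩ := hp.use 1 (by norm_num) 2 (by norm_num; linarith) (by norm_num; linarith)
  obtain ⟨f2, g2⟩ := hp.use 2 (by norm_num) 4 (by norm_num; linarith) (by norm_num; linarith)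
  obtain ⟨f3, g3⟩ := hp.use 3 (by norm_num) 5 (by norm_num; linarith) (by norm_num; linarith)
  obtain ⟨f4, g4⟩ := hp.use 4 (by norm_num) 7 (by norm_num; linarith) (by norm_num; linarith)
  obtain ⟨f5, g5⟩ := hp.use 5 (by norm_num) 8 (by norm_num; linarith) (by norm_num; linarith)
  obtain ⟨f6, g6⟩ := hp.use 6 (by norm_num) 10 (by norm_num; linarith) (by norm_num; linarith)
  obtain ⟨f7, g7⟩ := hp.use 7 (by norm_num) 12 (by norm_num; linarith) (by norm_num; linarith)
  obtain ⟨f8, g8⟩ := hp.use 8 (by norm_num) 13 (by norm_num; linarith) (by norm_num; linarith)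
  obtain ⟨f9, g9⟩ := hp.use 9 (by norm_num) 15 (by norm_num; linarith) (by norm_num; linarith)
  obtain ⟨f10, g10⟩ := hp.use 10 (by norm_num) 17 (by norm_num; linarith) (by norm_num; linarith)
  obtain ⟨f11, g11⟩ := hp.use 11 (by norm_num) 18 (by norm_num; linarith) (by norm_num; linarith)
  obtain ⟨f12, g12⟩ := hp.use 12 (by norm_num) 20 (by norm_num; linarith) (by norm_num; linarith)
  obtain ⟨f13, g13⟩ := hp.use 13 (by norm_num) 21 (by norm_num; linarith) (by norm_num; linarith)
  norm_num at f1 g1 f2 g2 f3 g3 f4 g4 f5 g5 f6 g6 f7 g7 f8 g8 f9 g9 f10 g10 f11 g11 f12 g12 f13 g13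
  exfalso; linarith

lemma gap12 {φ x τ : ℝ} (φ1 : 1.618033 < φ) (φ2 : φ < 1.618034) (hτ1 : 0.27 ≤ τ)
    (hτ2 : τ ≤ 0.73) {p : ℕ → Prop} (hp : PH φ x τ p) (h0 : p 0)
    (ha : 9 - 5 * φ ≤ x) (hb : x < 22 - 13 * φ) : Good3 p := by
  obtain ⟨-, t0⟩ := hp.use 0 (by norm_num) 0 (by norm_num; linarith) (by norm_num; linarith)
  have t0 := t0 h0
  norm_num at t0
  obtain ⟨f1, g1⟩ := hp.use 1 (by norm_num) 2 (by norm_num; linarith) (by norm_num; linarith)
  obtain ⟨f2, g2⟩ := hp.use 2 (by norm_num) 4 (by norm_num; linarith) (by norm_num; linarith)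
  obtain ⟨f3, g3⟩ := hp.use 3 (by norm_num) 5 (by norm_num; linarith) (by norm_num; linarith)
  obtain ⟨f4, g4⟩ := hp.use 4 (by norm_num) 7 (by norm_num; linarith) (by norm_num; linarith)
  obtain ⟨f5, g5⟩ := hp.use 5 (by norm_num) 9 (by norm_num; linarith) (by norm_num; linarith)
  obtain ⟨f6, g6⟩ := hp.use 6 (by norm_num) 10 (by norm_num; linarith) (by norm_num; linarith)
  obtain ⟨f7, g7⟩ := hp.use 7 (by norm_num) 12 (by norm_num; linarith) (by norm_num; linarith)
  obtain ⟨f8, g8⟩ := hp.use 8 (by norm_num) 13 (by norm_num; linarith) (by norm_num; linarith)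
  obtain ⟨f9, g9⟩ := hp.use 9 (by norm_num) 15 (by norm_num; linarith) (by norm_num; linarith)
  obtain ⟨f10, g10⟩ := hp.use 10 (by norm_num) 17 (by norm_num; linarith) (by norm_num; linarith)
  obtain ⟨f11, g11⟩ := hp.use 11 (by norm_num) 18 (by norm_num; linarith) (by norm_num; linarith)
  obtain ⟨f12, g12⟩ := hp.use 12 (by norm_num) 20 (by norm_num; linarith) (by norm_num; linarith)
  obtain ⟨f13, g13⟩ := hp.use 13 (by norm_num) 21 (by norm_num; linarith) (by norm_num; linarith)
  norm_num at f1 g1 f2 g2 f3 g3 f4 g4 f5 g5 f6 g6 f7 g7 f8 g8 f9 g9 f10 g10 f11 g11 f12 g12 f13 g13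
  exfalso; linarith

lemma gap13 {φ x τ : ℝ} (φ1 : 1.618033 < φ) (φ2 : φ < 1.618034) (hτ1 : 0.27 ≤ τ)
    (hτ2 : τ ≤ 0.73) {p : ℕ → Prop} (hp : PH φ x τ p) (h0 : p 0)
    (ha : 22 - 13 * φ ≤ x) (hb : x < 1) : Good3 p := by
  obtain ⟨-, t0⟩ := hp.use 0 (by norm_num) 0 (by norm_num; linarith) (by norm_num; linarith)
  have t0 := t0 h0
  norm_num at t0
  obtain ⟨f1, g1⟩ := hp.use 1 (by norm_num) 2 (by norm_num; linarith) (by norm_num; linarith)
  obtain ⟨f2, g2⟩ := hp.use 2 (by norm_num) 4 (by norm_num; linarith) (by norm_num; linarith)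
  obtain ⟨f3, g3⟩ := hp.use 3 (by norm_num) 5 (by norm_num; linarith) (by norm_num; linarith)
  obtain ⟨f4, g4⟩ := hp.use 4 (by norm_num) 7 (by norm_num; linarith) (by norm_num; linarith)
  obtain ⟨f5, g5⟩ := hp.use 5 (by norm_num) 9 (by norm_num; linarith) (by norm_num; linarith)
  obtain ⟨f6, g6⟩ := hp.use 6 (by norm_num) 10 (by norm_num; linarith) (by norm_num; linarith)
  obtain ⟨f7, g7⟩ := hp.use 7 (by norm_num) 12 (by norm_num; linarith) (by norm_num; linarith)
  obtain ⟨f8, g8⟩ := hp.use 8 (by norm_num) 13 (by norm_num; linarith) (by norm_num; linarith)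
  obtain ⟨f9, g9⟩ := hp.use 9 (by norm_num) 15 (by norm_num; linarith) (by norm_num; linarith)
  obtain ⟨f10, g10⟩ := hp.use 10 (by norm_num) 17 (by norm_num; linarith) (by norm_num; linarith)
  obtain ⟨f11, g11⟩ := hp.use 11 (by norm_num) 18 (by norm_num; linarith) (by norm_num; linarith)
  obtain ⟨f12, g12⟩ := hp.use 12 (by norm_num) 20 (by norm_num; linarith) (by norm_num; linarith)
  obtain ⟨f13, g13⟩ := hp.use 13 (by norm_num) 22 (by norm_num; linarith) (by norm_num; linarith)
  norm_num at f1 g1 f2 g2 f3 g3 f4 g4 f5 g5 f6 g6 f7 g7 f8 g8 f9 g9 f10 g10 f11 g11 f12 g12 f13 g13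
  exfalso; linarith

theorem gap {φ x τ : ℝ} (φ1 : 1.618033 < φ) (φ2 : φ < 1.618034) (hτ1 : 0.27 ≤ τ)
    (hτ2 : τ ≤ 0.73) (hx0 : 0 ≤ x) (hx1 : x < 1) {p : ℕ → Prop} (hp : PH φ x τ p) (h0 : p 0) :
    Good3 p := by
  rcases lt_or_ge x (13 - 8 * φ) with h | h
  · exact gap0 φ1 φ2 hτ1 hτ2 hp h0 hx0 h
  rename' h => h1
  rcases lt_or_ge x (5 - 3 * φ) with h | h
  · exact gap1 φ1 φ2 hτ1 hτ2 hp h0 h1 h
  rename' h => h2
  rcases lt_or_ge x (18 - 11 * φ) with h | h
  · exact gap2 φ1 φ2 hτ1 hτ2 hp h0 h2 h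
  rename' h => h3
  rcases lt_or_ge x (10 - 6 * φ) with h | h
  · exact gap3 φ1 φ2 hτ1 hτ2 hp h0 h3 h
  rename' h => h4
  rcases lt_or_ge x (2 - 1 * φ) with h | h
  · exact gap4 φ1 φ2 hτ1 hτ2 hp h0 h4 h
  rename' h => h5
  rcases lt_or_ge x (15 - 9 * φ) with h | h
  · exact gap5 φ1 φ2 hτ1 hτ2 hp h0 h5 h
  rename' h => h6
  rcases lt_or_ge x (7 - 4 * φ) with h | h
  · exact gap6 φ1 φ2 hτ1 hτ2 hp h0 h6 h
  rename' h => h7
  rcases lt_or_ge x (20 - 12 * φ) with h | h
  · exact gap7 φ1 φ2 hτ1 hτ2 hp h0 h7 h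
  rename' h => h8
  rcases lt_or_ge x (12 - 7 * φ) with h | h
  · exact gap8 φ1 φ2 hτ1 hτ2 hp h0 h8 h
  rename' h => h9
  rcases lt_or_ge x (4 - 2 * φ) with h | h
  · exact gap9 φ1 φ2 hτ1 hτ2 hp h0 h9 h
  rename' h => h10
  rcases lt_or_ge x (17 - 10 * φ) with h | h
  · exact gap10 φ1 φ2 hτ1 hτ2 hp h0 h10 h
  rename' h => h11
  rcases lt_or_ge x (9 - 5 * φ) with h | h
  · exact gap11 φ1 φ2 hτ1 hτ2 hp h0 h11 h
  rename' h => h12
  rcases lt_or_ge x (22 - 13 * φ) with h | h
  · exact gap12 φ1 φ2 hτ1 hτ2 hp h0 h12 h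
  rename' h => h13
  exact gap13 φ1 φ2 hτ1 hτ2 hp h0 h13 hx1

end Pool.Agent.V11124.FW
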