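import Pool.Agent.V11124.FW.Crit
import Pool.Agent.V11124.FW.Gap

open Real

set_option linter.all false

namespace Pool.Agent.V11124.FW

def Wc (n : ℕ) : ℕ := n * 17711 / 10946

def pB (n fo fo1 : ℕ) : Bool := Nat.blt (fo1 * n) (fo * Wc n)
def qB (n fe fe1 : ℕ) : Bool := Nat.blt (fe * (Wc n + 1)) (fe1 * n)

def dnB (n : ℕ) : Bool :=
  (pB n 1 1 && !qB n 1 2) || ((pB n 2 3 && !qB n 3 5) || ((pB n 5 8 && !qB n 8 13) ||
  ((pB n 13 21 && !qB n 21 34) || ((pB n 34 55 && !qB n 55 89) || (pB n 89 144 && !qB n 144 233)))))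

def upB (n : ℕ) : Bool :=
  (qB n 0 1 && !pB n 1 1) || ((qB n 1 2 && !pB n 2 3) || ((qB n 3 5 && !pB n 5 8) ||
  ((qB n 8 13 && !pB n 13 21) || ((qB n 21 34 && !pB n 34 55) ||
  ((qB n 55 89 && !pB n 89 144) || (qB n 144 233 && !pB n 233 377))))))

def wOK (n : ℕ) : Bool :=
  Nat.ble (Wc n * Wc n) (Wc n * n + n * n) &&
    Nat.blt ((Wc n + 1) * n + n * n) ((Wc n + 1) * (Wc n + 1))

def chk (n : ℕ) : Bool := wOK n && (dnB n || upB n)

lemma chk_all : (List.range 1914).all (fun n => Nat.blt n 2 || chk n) = true := by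
  decide +kernel

lemma wOK_spec {n : ℕ} (h : wOK n = true) : W n = Wc n := by
  unfold wOK at h
  rw [Bool.and_eq_true, Nat.ble_eq, Nat.blt_eq] at h
  obtain ⟨h1, h2⟩ := h
  have h1' : (Wc n : ℝ) * Wc n ≤ Wc n * n + n * n := by exact_mod_cast h1
  have h2' : ((Wc n : ℝ) + 1) * n + n * n < (Wc n + 1) * (Wc n + 1) := by exact_mod_cast h2
  have hφ := goldenRatio_sq
  have hp := goldenRatio_pos
  have hg := one_lt_goldenRatio
  have hn : (0 : ℝ) ≤ n := Nat.cast_nonneg _
  have hw : (0 : ℝ) ≤ Wc n := Nat.cast_nonneg _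
  unfold W
  rw [Int.floor_eq_iff]
  push_cast
  constructor
  · by_contra hc
    push Not at hc
    -- w > φ n: w^2 - w n - n^2 = (w - φ n)(w + n/φ) > 0
    have h3 : 0 < (Wc n - goldenRatio * n) * (Wc n + (goldenRatio - 1) * n) := by
      apply mul_pos (by linarith)
      have : 0 < (Wc n : ℝ) := lt_of_le_of_lt (by positivity) hc
      nlinarith
    have h4 : (Wc n - goldenRatio * n) * (Wc n + (goldenRatio - 1) * n)
        = Wc n * Wc n - Wc n * n - n * n := by
      linear_combination (-(n : ℝ) ^ 2) * hφ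
    linarith
  · by_contra hc
    push Not at hc
    have h3 : (Wc n + 1 - goldenRatio * n) * (Wc n + 1 + (goldenRatio - 1) * n) ≤ 0 := by
      apply mul_nonpos_of_nonpos_of_nonneg (by linarith)
      nlinarith
    have h4 : (Wc n + 1 - goldenRatio * n) * (Wc n + 1 + (goldenRatio - 1) * n)
        = (Wc n + 1) * (Wc n + 1) - (Wc n + 1) * n - n * n := by
      linear_combination (-(n : ℝ) ^ 2) * hφ
    linarith

lemma pB_spec {n : ℕ} (hW : W n = Wc n) (o : ℕ) :
    pB n (Nat.fib o) (Nat.fib (o + 1)) = true ↔ P n o := by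
  unfold pB P
  rw [Nat.blt_eq, hW]
  constructor
  · intro h; exact_mod_cast h
  · intro h; exact_mod_cast h

lemma qB_spec {n : ℕ} (hW : W n = Wc n) (e : ℕ) :
    qB n (Nat.fib e) (Nat.fib (e + 1)) = true ↔ Q n e := by
  unfold qB Q
  rw [Nat.blt_eq, hW]
  constructor
  · intro h; exact_mod_cast h
  · intro h; exact_mod_cast h

lemma dn_aux {n : ℕ} (hW : W n = Wc n) (o : ℕ) (ho : Odd o)
    (h : (pB n (Nat.fib o) (Nat.fib (o + 1)) &&
      !qB n (Nat.fib (o + 1)) (Nat.fib (o + 2))) = true) :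
    ∃ o, Odd o ∧ P n o ∧ ¬ Q n (o + 1) := by
  rw [Bool.and_eq_true, Bool.not_eq_true'] at h
  refine ⟨o, ho, (pB_spec hW o).1 h.1, ?_⟩
  intro hQ
  have := (qB_spec hW (o + 1)).2 hQ
  rw [h.2] at this
  exact absurd this (by simp)

lemma up_aux {n : ℕ} (hW : W n = Wc n) (o : ℕ) (ho : Even o)
    (h : (qB n (Nat.fib o) (Nat.fib (o + 1)) &&
      !pB n (Nat.fib (o + 1)) (Nat.fib (o + 2))) = true) :
    ∃ o, Even o ∧ Q n o ∧ ¬ P n (o + 1) := by
  rw [Bool.and_eq_true, Bool.not_eq_true'] at h
  refine ⟨o, ho, (qB_spec hW o).1 h.1, ?_⟩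
  intro hQ
  have := (pB_spec hW (o + 1)).2 hQ
  rw [h.2] at this
  exact absurd this (by simp)

lemma dn_imp {n : ℕ} (hn : 2 ≤ n) (hW : W n = Wc n) (h : dnB n = true) : Down n := by
  rw [down_iff]
  refine ⟨hn, ?_⟩
  unfold dnB at h
  simp only [Bool.or_eq_true] at h
  rcases h with h | h | h | h | h | h
  · exact dn_aux hW 1 (by decide) h
  · exact dn_aux hW 3 (by decide) h
  · exact dn_aux hW 5 (by decide) h
  · exact dn_aux hW 7 (by decide) h
  · exact dn_aux hW 9 (by decide) h
  · exact dn_aux hW 11 (by decide) h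

lemma up_imp {n : ℕ} (hn : 2 ≤ n) (hW : W n = Wc n) (h : upB n = true) : Up n := by
  rw [up_iff]
  refine ⟨hn, ?_⟩
  unfold upB at h
  simp only [Bool.or_eq_true] at h
  rcases h with h | h | h | h | h | h | h
  · exact up_aux hW 0 (by decide) h
  · exact up_aux hW 2 (by decide) h
  · exact up_aux hW 4 (by decide) h
  · exact up_aux hW 6 (by decide) h
  · exact up_aux hW 8 (by decide) h
  · exact up_aux hW 10 (by decide) h
  · exact up_aux hW 12 (by decide) h

lemma small_spec {n : ℕ} (hn : 2 ≤ n) (hn' : n < 1914) :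
    (Down n ↔ dnB n = true) ∧ (Up n ↔ upB n = true) := by
  have h := List.all_eq_true.1 chk_all n (List.mem_range.2 hn')
  rw [Bool.or_eq_true] at h
  have h' : chk n = true := by
    rcases h with h | h
    · rw [Nat.blt_eq] at h; omega
    · exact h
  unfold chk at h'
  rw [Bool.and_eq_true, Bool.or_eq_true] at h'
  have hW := wOK_spec h'.1
  constructor
  · constructor
    · intro hd
      rcases h'.2 with h1 | h1
      · exact h1
      · exact (not_both hd (up_imp hn hW h1)).elim
    · exact dn_imp hn hW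
  · constructor
    · intro hu
      rcases h'.2 with h1 | h1
      · exact (not_both (dn_imp hn hW h1) hu).elim
      · exact h1
    · exact up_imp hn hW

/-- the third element of `{i ∈ [1,13] | f i}` -/
def tg (f : ℕ → Bool) : ℕ :=
  match (List.range' 1 13).filter f with
  | (_ :: _ :: g :: _) => g
  | _ => 0

lemma tg_spec {f : ℕ → Bool} (h : tg f ≠ 0) : Third (fun i => f i = true) (tg f) ∧ tg f ≤ 13 := by
  unfold tg at h ⊢
  have hs : ((List.range' 1 13).filter f).Pairwise (· < ·) :=
    List.Pairwise.filter _ (List.pairwise_lt_range')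
  have hm : ∀ i, i ∈ (List.range' 1 13).filter f ↔ (1 ≤ i ∧ i ≤ 13) ∧ f i = true := by
    intro i
    rw [List.mem_filter, List.mem_range'_1]
    constructor <;> rintro ⟨⟨h1, h2⟩, h3⟩ <;> exact ⟨⟨by omega, by omega⟩, h3⟩
  match hl : (List.range' 1 13).filter f with
  | [] => rw [hl] at h; simp at h
  | [a] => rw [hl] at h; simp at h
  | [a, b] => rw [hl] at h; simp at h
  | (a :: b :: g :: r) =>
    rw [hl] at hs hm
    simp only
    have ha := (hm a).1 (by simp)
    have hb := (hm b).1 (by simp)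
    have hg := (hm g).1 (by simp)
    rw [List.pairwise_cons, List.pairwise_cons, List.pairwise_cons] at hs
    obtain ⟨h1, h2, h3, _⟩ := hs
    have hab := h1 b (by simp)
    have hbg := h2 g (by simp)
    refine ⟨⟨a, b, by omega, hab, hbg, hg.2, ha.2, hb.2, ?_⟩, by omega⟩
    intro i hi1 hi2 hf
    have := (hm i).2 ⟨⟨by omega, by omega⟩, hf⟩
    simp only [List.mem_cons] at this
    rcases this with rfl | rfl | rfl | hr
    · exact Or.inl rfl
    · exact Or.inr rfl
    · omega
    · have := h3 i hr; omega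

def okS (g : ℕ) : Bool := [3, 4, 5, 6, 7, 8, 10, 11, 13].elem g

lemma okS_spec {g : ℕ} (h : okS g = true) :
    g ∈ ({3, 4, 5, 6, 7, 8, 10, 11, 13} : Set ℕ) ∧ g ≠ 0 := by
  unfold okS at h
  simp only [List.elem_eq_mem, List.mem_cons, List.not_mem_nil, or_false, decide_eq_true_eq] at h
  constructor
  · simpa using h
  · omega

lemma gap_all : (List.range 1900).all (fun n => Nat.blt n 2 ||
    ((!dnB n || okS (tg fun i => dnB (n + i))) && (!upB n || okS (tg fun i => upB (n + i))))) = true := by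
  decide +kernel

lemma Third_congr {p q : ℕ → Prop} {g : ℕ} (h : ∀ i, i ≤ g → (p i ↔ q i)) (ht : Third p g) :
    Third q g := by
  obtain ⟨i1, i2, h1, h2, h3, pg, p1, p2, hh⟩ := ht
  exact ⟨i1, i2, h1, h2, h3, (h _ le_rfl).1 pg, (h _ (by omega)).1 p1, (h _ (by omega)).1 p2,
    fun i hi1 hi2 hq => hh i hi1 hi2 ((h i (by omega)).2 hq)⟩

lemma small_gap {n : ℕ} (hn : 2 ≤ n) (hn' : n < 1900) :
    (Down n → Good3 fun i => Down (n + i)) ∧ (Up n → Good3 fun i => Up (n + i)) := by
  have h := List.all_eq_true.1 gap_all n (List.mem_range.2 hn')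
  rw [Bool.or_eq_true] at h
  have h' := h.resolve_left (by rw [Nat.blt_eq]; omega)
  rw [Bool.and_eq_true, Bool.or_eq_true, Bool.or_eq_true, Bool.not_eq_true',
    Bool.not_eq_true'] at h'
  obtain ⟨h1, h2⟩ := h'
  constructor
  · intro hd
    have hd' := (small_spec hn (by omega)).1.1 hd
    rw [hd'] at h1
    have h3 := h1.resolve_left (by simp)
    obtain ⟨h4, h5⟩ := okS_spec h3
    obtain ⟨h6, h7⟩ := tg_spec h5
    exact ⟨_, h4, Third_congr (fun i hi => ((small_spec (by omega) (by omega)).1).symm) h6⟩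
  · intro hd
    have hd' := (small_spec hn (by omega)).2.1 hd
    rw [hd'] at h2
    have h3 := h2.resolve_left (by simp)
    obtain ⟨h4, h5⟩ := okS_spec h3
    obtain ⟨h6, h7⟩ := tg_spec h5
    exact ⟨_, h4, Third_congr (fun i hi => ((small_spec (by omega) (by omega)).2).symm) h6⟩

/-- all values occur -/
lemma occur_dn (g : ℕ) (hg : g ∈ ({3, 4, 5, 6, 7, 8, 10, 11, 13} : Set ℕ)) :
    ∃ n, 2 ≤ n ∧ Down n ∧ Third (fun i => Down (n + i)) g := by
  have key : ∀ n g : ℕ, 2 ≤ n → n < 1900 → g ≠ 0 → dnB n = true → (tg fun i => dnB (n + i)) = g →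
      ∃ n, 2 ≤ n ∧ Down n ∧ Third (fun i => Down (n + i)) g := by
    intro n g hn hn' hg0 hd ht
    refine ⟨n, hn, (small_spec hn (by omega)).1.2 hd, ?_⟩
    obtain ⟨h6, h7⟩ := tg_spec (f := fun i => dnB (n + i)) (by rw [ht]; exact hg0)
    rw [ht] at h6 h7
    exact Third_congr (fun i hi => ((small_spec (by omega) (by omega)).1).symm) h6
  simp only [Set.mem_insert_iff, Set.mem_singleton_iff] at hg
  rcases hg with rfl | rfl | rfl | rfl | rfl | rfl | rfl | rfl | rfl
  · exact key 46 3 (by norm_num) (by norm_num) (by norm_num) (by decide +kernel) (by decide +kernel)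
  · exact key 9 4 (by norm_num) (by norm_num) (by norm_num) (by decide +kernel) (by decide +kernel)
  · exact key 5 5 (by norm_num) (by norm_num) (by norm_num) (by decide +kernel) (by decide +kernel)
  · exact key 12 6 (by norm_num) (by norm_num) (by norm_num) (by decide +kernel) (by decide +kernel)
  · exact key 2 7 (by norm_num) (by norm_num) (by norm_num) (by decide +kernel) (by decide +kernel)
  · exact key 23 8 (by norm_num) (by norm_num) (by norm_num) (by decide +kernel) (by decide +kernel)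
  · exact key 13 10 (by norm_num) (by norm_num) (by norm_num) (by decide +kernel) (by decide +kernel)
  · exact key 15 11 (by norm_num) (by norm_num) (by norm_num) (by decide +kernel) (by decide +kernel)
  · exact key 107 13 (by norm_num) (by norm_num) (by norm_num) (by decide +kernel) (by decide +kernel)

lemma occur_up (g : ℕ) (hg : g ∈ ({3, 4, 5, 6, 7, 8, 10, 11, 13} : Set ℕ)) :
    ∃ n, 2 ≤ n ∧ Up n ∧ Third (fun i => Up (n + i)) g := by
  have key : ∀ n g : ℕ, 2 ≤ n → n < 1900 → g ≠ 0 → upB n = true → (tg fun i => upB (n + i)) = g →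
      ∃ n, 2 ≤ n ∧ Up n ∧ Third (fun i => Up (n + i)) g := by
    intro n g hn hn' hg0 hd ht
    refine ⟨n, hn, (small_spec hn (by omega)).2.2 hd, ?_⟩
    obtain ⟨h6, h7⟩ := tg_spec (f := fun i => upB (n + i)) (by rw [ht]; exact hg0)
    rw [ht] at h6 h7
    exact Third_congr (fun i hi => ((small_spec (by omega) (by omega)).2).symm) h6
  simp only [Set.mem_insert_iff, Set.mem_singleton_iff] at hg
  rcases hg with rfl | rfl | rfl | rfl | rfl | rfl | rfl | rfl | rfl
  · exact key 19 3 (by norm_num) (by norm_num) (by norm_num) (by decide +kernel) (by decide +kernel)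
  · exact key 16 4 (by norm_num) (by norm_num) (by norm_num) (by decide +kernel) (by decide +kernel)
  · exact key 3 5 (by norm_num) (by norm_num) (by norm_num) (by decide +kernel) (by decide +kernel)
  · exact key 11 6 (by norm_num) (by norm_num) (by norm_num) (by decide +kernel) (by decide +kernel)
  · exact key 4 7 (by norm_num) (by norm_num) (by norm_num) (by decide +kernel) (by decide +kernel)
  · exact key 6 8 (by norm_num) (by norm_num) (by norm_num) (by decide +kernel) (by decide +kernel)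
  · exact key 40 10 (by norm_num) (by norm_num) (by norm_num) (by decide +kernel) (by decide +kernel)
  · exact key 42 11 (by norm_num) (by norm_num) (by norm_num) (by decide +kernel) (by decide +kernel)
  · exact key 291 13 (by norm_num) (by norm_num) (by norm_num) (by decide +kernel) (by decide +kernel)

end Pool.Agent.V11124.FW
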