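import Pool.Agent.V11124.FW.Thr
import Pool.Agent.V11124.FW.Fin

open Real

set_option linter.all false

namespace Pool.Agent.V11124.FW

/-- from the third-element statement to counts (forward) -/
lemma count_fwd {p : ℕ → Prop} [DecidablePred p] {n g : ℕ} (hn : p n)
    (h : Third (fun i => p (n + i)) g) : Nat.count p (n + g) = Nat.count p n + 3 := by
  obtain ⟨i1, i2, h1, h2, h3, pg, p1, p2, hh⟩ := h
  rw [Nat.count_add]
  congr 1
  rw [Nat.count_eq_card_filter_range]
  have : (Finset.range g).filter (fun k => p (n + k)) = {0, i1, i2} := by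
    ext i
    simp only [Finset.mem_filter, Finset.mem_range, Finset.mem_insert, Finset.mem_singleton]
    constructor
    · rintro ⟨hi, hp⟩
      rcases Nat.eq_zero_or_pos i with h0 | h0
      · exact Or.inl h0
      · exact Or.inr (hh i h0 hi hp)
    · rintro (rfl | rfl | rfl)
      · exact ⟨by omega, by simpa using hn⟩
      · exact ⟨by omega, p1⟩
      · exact ⟨by omega, p2⟩
  rw [this, Finset.card_insert_of_notMem, Finset.card_insert_of_notMem, Finset.card_singleton]
  · simp; omega
  · simp; omega

/-- backward version -/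
lemma count_bwd {p : ℕ → Prop} [DecidablePred p] {n g : ℕ} (hg : g ≤ n)
    (h : Third (fun i => p (n - i)) g) : Nat.count p n = Nat.count p (n - g) + 3 := by
  obtain ⟨i1, i2, h1, h2, h3, pg, p1, p2, hh⟩ := h
  conv_lhs => rw [show n = (n - g) + g by omega]
  rw [Nat.count_add]
  congr 1
  rw [Nat.count_eq_card_filter_range]
  have : (Finset.range g).filter (fun k => p (n - g + k)) = {0, g - i1, g - i2} := by
    ext i
    simp only [Finset.mem_filter, Finset.mem_range, Finset.mem_insert, Finset.mem_singleton]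
    constructor
    · rintro ⟨hi, hp⟩
      rcases Nat.eq_zero_or_pos i with h0 | h0
      · exact Or.inl h0
      · right
        have := hh (g - i) (by omega) (by omega) (by
          show p (n - (g - i))
          rw [show n - (g - i) = n - g + i by omega]; exact hp)
        omega
    · rintro (rfl | rfl | rfl)
      · exact ⟨by omega, by simpa using pg⟩
      · refine ⟨by omega, ?_⟩
        rw [show n - g + (g - i1) = n - i1 by omega]; exact p1
      · refine ⟨by omega, ?_⟩
        rw [show n - g + (g - i2) = n - i2 by omega]; exact p2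
  rw [this, Finset.card_insert_of_notMem, Finset.card_insert_of_notMem, Finset.card_singleton]
  · simp; omega
  · simp; omega

lemma big_down {n : ℕ} (hn : 1880 ≤ n) (hd : Down n) : Good3 fun i => Down (n + i) := by
  obtain ⟨φ1, φ2⟩ := phi_bounds
  obtain ⟨τ, h1, h2, h⟩ := threshold 1 n (by norm_num) hn
  refine gap (φ := goldenRatio) (x := Int.fract (goldenRatio * n)) (τ := τ) φ1 φ2 h1 h2
    (Int.fract_nonneg _) (Int.fract_lt_one _) ?_ (by simpa using hd)
  have key : ∀ i : ℕ, Int.fract (Int.fract (goldenRatio * n) + (i : ℝ) * goldenRatio)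
      = Int.fract (goldenRatio * ((n + i : ℕ) : ℝ)) := by
    intro i
    rw [Int.fract_eq_fract]
    refine ⟨-⌊goldenRatio * (n : ℝ)⌋, ?_⟩
    push_cast
    have := Int.self_sub_floor (goldenRatio * (n : ℝ))
    rw [← this]
    ring
  constructor
  · intro i hi hx
    rw [key] at hx
    rw [down_iff_mem (by omega)]
    exact (h (n + i) (by omega) (by omega) _ (Int.fract_nonneg _) (Int.fract_lt_one _).le).1 hx
  · intro i hi hp
    rw [key]
    rw [down_iff_mem (by omega)] at hp
    exact (h (n + i) (by omega) (by omega) _ (Int.fract_nonneg _) (Int.fract_lt_one _).le).2 hp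

lemma fract_neg' {n : ℕ} (hn : 1 ≤ n) :
    1 - Int.fract (goldenRatio * n) = Int.fract (-(goldenRatio * n)) := by
  have h3 : Irrational (goldenRatio * n) := goldenRatio_irrational.mul_natCast (m := n) (by omega)
  rw [Int.fract_neg]
  intro h0
  rw [Int.fract_eq_iff] at h0
  obtain ⟨_, _, z, hz⟩ := h0
  apply h3
  exact ⟨(z : ℚ), by push_cast; linarith⟩

lemma big_up {n : ℕ} (hn : 1880 ≤ n) (hd : Up n) : Good3 fun i => Up (n - i) := by
  obtain ⟨φ1, φ2⟩ := phi_bounds
  obtain ⟨τ, h1, h2, h⟩ := threshold 0 n (by norm_num) hn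
  refine gap (φ := goldenRatio) (x := Int.fract (-(goldenRatio * n))) (τ := τ) φ1 φ2 h1 h2
    (Int.fract_nonneg _) (Int.fract_lt_one _) ?_ (by simpa using hd)
  have key : ∀ i : ℕ, i ≤ 13 → Int.fract (Int.fract (-(goldenRatio * n)) + (i : ℝ) * goldenRatio)
      = 1 - Int.fract (goldenRatio * ((n - i : ℕ) : ℝ)) := by
    intro i hi
    rw [fract_neg' (by omega), Int.fract_eq_fract]
    refine ⟨-⌊-(goldenRatio * (n : ℝ))⌋, ?_⟩
    rw [Nat.cast_sub (by omega)]
    push_cast
    have := Int.self_sub_floor (-(goldenRatio * (n : ℝ)))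
    rw [← this]
    ring
  constructor
  · intro i hi hx
    rw [key i hi] at hx
    rw [up_iff_mem (by omega)]
    have a1 := Int.fract_nonneg (goldenRatio * ((n - i : ℕ) : ℝ))
    have a2 := Int.fract_lt_one (goldenRatio * ((n - i : ℕ) : ℝ))
    exact (h (n - i) (by omega) (by omega) _ (by linarith) (by linarith)).1 hx
  · intro i hi hp
    rw [key i hi]
    rw [up_iff_mem (by omega)] at hp
    have a1 := Int.fract_nonneg (goldenRatio * ((n - i : ℕ) : ℝ))
    have a2 := Int.fract_lt_one (goldenRatio * ((n - i : ℕ) : ℝ))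
    exact (h (n - i) (by omega) (by omega) _ (by linarith) (by linarith)).2 hp

lemma up_exists {n : ℕ} (hn : 1880 ≤ n) : ∃ m, n ≤ m ∧ Up m := by
  obtain ⟨φ1, φ2⟩ := phi_bounds
  obtain ⟨τ, h1, h2, h⟩ := threshold 0 n (by norm_num) hn
  obtain ⟨x, hx⟩ : ∃ x, x = Int.fract (-(goldenRatio * n)) := ⟨_, rfl⟩
  have hx0 : 0 ≤ x := by rw [hx]; exact Int.fract_nonneg _
  have hx1 : x < 1 := by rw [hx]; exact Int.fract_lt_one _
  have key : ∀ k : ℕ, k ≤ 4 → 0 ≤ x - k * (2 * goldenRatio - 3) →
      x - k * (2 * goldenRatio - 3) < 0.25 → Up (n + 2 * k) := by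
    intro k hk h3 h4
    have hf : 1 - Int.fract (goldenRatio * ((n + 2 * k : ℕ) : ℝ))
        = x - k * (2 * goldenRatio - 3) := by
      rw [fract_neg' (by omega), Int.fract_eq_iff]
      refine ⟨h3, by linarith, -3 * k + ⌊-(goldenRatio * (n : ℝ))⌋, ?_⟩
      rw [hx]
      push_cast
      have := Int.self_sub_floor (-(goldenRatio * (n : ℝ)))
      rw [← this]
      ring
    rw [up_iff_mem (by omega), hf]
    exact (h (n + 2 * k) (by omega) (by omega) _ h3 (by linarith)).1 (by linarith)
  rcases lt_or_ge x (1 * (2 * goldenRatio - 3)) with a | a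
  · exact ⟨_, by omega, key 0 (by norm_num) (by norm_num; linarith) (by norm_num; linarith)⟩
  · rcases lt_or_ge x (2 * (2 * goldenRatio - 3)) with b | b
    · exact ⟨_, by omega, key 1 (by norm_num) (by norm_num; linarith) (by norm_num; linarith)⟩
    · rcases lt_or_ge x (3 * (2 * goldenRatio - 3)) with c | c
      · exact ⟨_, by omega, key 2 (by norm_num) (by norm_num; linarith) (by norm_num; linarith)⟩
      · rcases lt_or_ge x (4 * (2 * goldenRatio - 3)) with d | d
        · exact ⟨_, by omega, key 3 (by norm_num) (by norm_num; linarith) (by norm_num; linarith)⟩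
        · exact ⟨_, by omega, key 4 (by norm_num) (by norm_num; linarith) (by norm_num; linarith)⟩

lemma down_good {n : ℕ} (hd : Down n) : Good3 fun i => Down (n + i) := by
  by_cases h : n < 1900
  · exact (small_gap hd.1 h).1 hd
  · exact big_down (by omega) hd

lemma inf_down : {n | Down n}.Infinite := by
  rw [Set.infinite_iff_exists_gt] 
  intro a
  induction a with
  | zero =>
    obtain ⟨n, h1, h2, h3⟩ := occur_dn 3 (by simp)
    exact ⟨n, h2, by omega⟩
  | succ a ih =>
    obtain ⟨n, h1, h2⟩ := ih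
    obtain ⟨g, hg, i1, i2, q1, q2, q3, pg, _⟩ := down_good h1
    exact ⟨n + g, pg, by omega⟩

lemma inf_up : {n | Up n}.Infinite := by
  rw [Set.infinite_iff_exists_gt]
  intro a
  obtain ⟨m, h1, h2⟩ := up_exists (n := 1880 + a + 1) (by omega)
  exact ⟨m, h2, by omega⟩

open Classical in
theorem gaps_down : gaps Down 3 = {3, 4, 5, 6, 7, 8, 10, 11, 13} := by
  ext g
  constructor
  · rintro ⟨k, rfl⟩
    have hd : Down (Nat.nth Down k) := Nat.nth_mem_of_infinite inf_down k
    obtain ⟨g, hg, ht⟩ := down_good hd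
    have hc := count_fwd hd ht
    rw [Nat.count_nth_of_infinite inf_down] at hc
    have pg : Down (Nat.nth Down k + g) := by
      obtain ⟨_, _, _, _, _, pg, _⟩ := ht; exact pg
    have hn := Nat.nth_count pg
    rw [hc] at hn
    rw [hn, Nat.add_sub_cancel_left]
    exact hg
  · intro hg
    obtain ⟨n, h2, hd, ht⟩ := occur_dn g hg
    have hc := count_fwd hd ht
    have pg : Down (n + g) := by
      obtain ⟨_, _, _, _, _, pg, _⟩ := ht; exact pg
    refine ⟨Nat.count Down n, ?_⟩
    rw [← hc, Nat.nth_count pg, Nat.nth_count hd, Nat.add_sub_cancel_left]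

open Classical in
theorem gaps_up : gaps Up 3 = {3, 4, 5, 6, 7, 8, 10, 11, 13} := by
  ext g
  constructor
  · rintro ⟨k, rfl⟩
    have hd : Up (Nat.nth Up k) := Nat.nth_mem_of_infinite inf_up k
    by_cases hs : Nat.nth Up k < 1900
    · obtain ⟨g, hg, ht⟩ := (small_gap hd.1 hs).2 hd
      have hc := count_fwd hd ht
      rw [Nat.count_nth_of_infinite inf_up] at hc
      have pg : Up (Nat.nth Up k + g) := by
        obtain ⟨_, _, _, _, _, pg, _⟩ := ht; exact pg
      have hn := Nat.nth_count pg
      rw [hc] at hn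
      rw [hn, Nat.add_sub_cancel_left]
      exact hg
    · have hd3 : Up (Nat.nth Up (k + 3)) := Nat.nth_mem_of_infinite inf_up (k + 3)
      have hle : Nat.nth Up k ≤ Nat.nth Up (k + 3) :=
        (Nat.nth_strictMono inf_up).monotone (by omega)
      obtain ⟨g, hg, ht⟩ := big_up (n := Nat.nth Up (k + 3)) (by omega) hd3
      have hg13 : g ≤ 13 := by
        simp only [Set.mem_insert_iff, Set.mem_singleton_iff] at hg
        omega
      have hc := count_bwd (p := Up) (n := Nat.nth Up (k + 3)) (g := g) (by omega) ht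
      rw [Nat.count_nth_of_infinite inf_up] at hc
      have pg : Up (Nat.nth Up (k + 3) - g) := by
        obtain ⟨_, _, _, _, _, pg, _⟩ := ht; exact pg
      have hn := Nat.nth_count pg
      rw [show Nat.count Up (Nat.nth Up (k + 3) - g) = k by omega] at hn
      rw [show Nat.nth Up (k + 3) - Nat.nth Up k = g by omega]
      exact hg
  · intro hg
    obtain ⟨n, h2, hd, ht⟩ := occur_up g hg
    have hc := count_fwd hd ht
    have pg : Up (n + g) := by
      obtain ⟨_, _, _, _, _, pg, _⟩ := ht; exact pg
    refine ⟨Nat.count Up n, ?_⟩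
    rw [← hc, Nat.nth_count pg, Nat.nth_count hd, Nat.add_sub_cancel_left]

end Pool.Agent.V11124.FW
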