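import Pool.Agent.V11124.FW.Crit

open Real

namespace Pool.Agent.V11124.FW

/-- `H_j = F_j φ^j` -/
noncomputable def H (j : ℕ) : ℝ := Nat.fib j * goldenRatio ^ j

/-- membership in terms of the distance `x` -/
def Mem (par n : ℕ) (x : ℝ) : Prop :=
  ∃ j, j % 2 = par ∧ H j * x < n ∧ (n : ℝ) ≤ H (j + 1) * (1 - x)

lemma phi_conj_pow (j : ℕ) : goldenRatio ^ j * goldenConj ^ j = (-1) ^ j := by
  rw [← mul_pow, goldenRatio_mul_goldenConj]

lemma P_iff {n o : ℕ} (ho : Odd o) :
    P n o ↔ H o * Int.fract (goldenRatio * n) < n := by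
  have h1 := fib_conj o
  have h2 := phi_conj_pow o
  rw [ho.neg_one_pow] at h2
  have hp : 0 < goldenRatio ^ o := pow_pos goldenRatio_pos _
  have hW : (W n : ℝ) = goldenRatio * n - Int.fract (goldenRatio * n) := by
    unfold W; rw [Int.self_sub_fract]
  unfold P H
  set δ := Int.fract (goldenRatio * n)
  have e : ((Nat.fib (o + 1) : ℤ) * n < Nat.fib o * W n) ↔
      ((Nat.fib (o + 1) : ℝ) * n < Nat.fib o * W n) := by
    constructor
    · intro h; exact_mod_cast h
    · intro h; exact_mod_cast h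
  rw [e, hW]
  have e2 : (Nat.fib o : ℝ) * (goldenRatio * n - δ) - Nat.fib (o + 1) * n
      = - goldenConj ^ o * n - Nat.fib o * δ := by
    rw [← h1]; ring
  have e3 : goldenRatio ^ o * (- goldenConj ^ o * n - Nat.fib o * δ)
      = n - Nat.fib o * goldenRatio ^ o * δ := by
    linear_combination (-(n : ℝ)) * h2
  constructor
  · intro h
    have : 0 < - goldenConj ^ o * n - Nat.fib o * δ := by linarith
    have := mul_pos hp this
    linarith
  · intro h
    have h4 : 0 < goldenRatio ^ o * (- goldenConj ^ o * n - Nat.fib o * δ) := by linarith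
    have := (pos_iff_pos_of_mul_pos h4).1 hp
    linarith

lemma Q_iff {n e : ℕ} (he : Even e) :
    Q n e ↔ H e * (1 - Int.fract (goldenRatio * n)) < n := by
  have h1 := fib_conj e
  have h2 := phi_conj_pow e
  rw [he.neg_one_pow] at h2
  have hp : 0 < goldenRatio ^ e := pow_pos goldenRatio_pos _
  have hW : (W n : ℝ) = goldenRatio * n - Int.fract (goldenRatio * n) := by
    unfold W; rw [Int.self_sub_fract]
  unfold Q H
  set δ := Int.fract (goldenRatio * n)
  have e1 : ((Nat.fib e : ℤ) * (W n + 1) < Nat.fib (e + 1) * n) ↔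
      ((Nat.fib e : ℝ) * (W n + 1) < Nat.fib (e + 1) * n) := by
    constructor
    · intro h; exact_mod_cast h
    · intro h; exact_mod_cast h
  rw [e1, hW]
  have e3 : goldenRatio ^ e * ((Nat.fib (e + 1) : ℝ) * n -
      Nat.fib e * (goldenRatio * n - δ + 1)) = n - Nat.fib e * goldenRatio ^ e * (1 - δ) := by
    have : (Nat.fib (e + 1) : ℝ) = goldenConj ^ e + goldenRatio * Nat.fib e := by linarith
    rw [this]
    linear_combination ((n : ℝ)) * h2
  constructor
  · intro h
    have : 0 < (Nat.fib (e + 1) : ℝ) * n - Nat.fib e * (goldenRatio * n - δ + 1) := by linarith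
    have := mul_pos hp this
    linarith
  · intro h
    have h4 : 0 < goldenRatio ^ e * ((Nat.fib (e + 1) : ℝ) * n -
      Nat.fib e * (goldenRatio * n - δ + 1)) := by linarith
    have := (pos_iff_pos_of_mul_pos h4).1 hp
    linarith

theorem down_iff_mem {n : ℕ} (hn : 2 ≤ n) :
    Down n ↔ Mem 1 n (Int.fract (goldenRatio * n)) := by
  rw [down_iff]
  unfold Mem
  constructor
  · rintro ⟨_, o, ho, hP, hQ⟩
    refine ⟨o, Nat.odd_iff.1 ho, (P_iff ho).1 hP, ?_⟩
    rw [Q_iff ho.add_one, not_lt] at hQ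
    exact hQ
  · rintro ⟨o, ho, h1, h2⟩
    have ho' : Odd o := Nat.odd_iff.2 ho
    refine ⟨hn, o, ho', (P_iff ho').2 h1, ?_⟩
    rw [Q_iff ho'.add_one, not_lt]
    exact h2

theorem up_iff_mem {n : ℕ} (hn : 2 ≤ n) :
    Up n ↔ Mem 0 n (1 - Int.fract (goldenRatio * n)) := by
  rw [up_iff]
  unfold Mem
  constructor
  · rintro ⟨_, o, ho, hQ, hP⟩
    refine ⟨o, Nat.even_iff.1 ho, (Q_iff ho).1 hQ, ?_⟩
    rw [P_iff ho.add_one, not_lt] at hP
    rw [sub_sub_cancel]
    exact hP
  · rintro ⟨o, ho, h1, h2⟩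
    have ho' : Even o := Nat.even_iff.2 ho
    refine ⟨hn, o, ho', (Q_iff ho').2 h1, ?_⟩
    rw [P_iff ho'.add_one, not_lt]
    rw [sub_sub_cancel] at h2
    exact h2

lemma phi_sq : goldenRatio ^ 2 = goldenRatio + 1 := goldenRatio_sq

lemma phi_bounds : 1.618033 < goldenRatio ∧ goldenRatio < 1.618034 := by
  have h5 : (2.236067 : ℝ) < √5 := by
    rw [Real.lt_sqrt (by norm_num)]; norm_num
  have h5' : √5 < (2.236068 : ℝ) := by
    rw [Real.sqrt_lt' (by norm_num)]; norm_num
  unfold goldenRatio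
  constructor <;> linarith

lemma H_succ (j : ℕ) : H (j + 1) = goldenRatio ^ 2 * H j + (-1) ^ j * goldenRatio := by
  unfold H
  have h1 := fib_conj j
  have h2 := phi_conj_pow j
  have : (Nat.fib (j + 1) : ℝ) = goldenConj ^ j + goldenRatio * Nat.fib j := by linarith
  rw [this, ← h2]
  ring

lemma H_nonneg (j : ℕ) : 0 ≤ H j := by
  unfold H
  exact mul_nonneg (Nat.cast_nonneg _) (pow_nonneg goldenRatio_pos.le _)

lemma H_mono {i j : ℕ} (h : i ≤ j) : H i ≤ H j := by
  unfold H
  apply mul_le_mul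
  · exact_mod_cast Nat.fib_mono h
  · exact pow_le_pow_right₀ one_lt_goldenRatio.le h
  · exact pow_nonneg goldenRatio_pos.le _
  · exact Nat.cast_nonneg _

lemma H_succ_bounds (j : ℕ) : goldenRatio ^ 2 * H j - goldenRatio ≤ H (j + 1) ∧
    H (j + 1) ≤ goldenRatio ^ 2 * H j + goldenRatio := by
  rw [H_succ]
  have hp := goldenRatio_pos
  rcases neg_one_pow_eq_or ℝ j with h | h <;> rw [h] <;> constructor <;> linarith

lemma H8 : 986 ≤ H 8 := by
  unfold H
  have h := phi_sq
  obtain ⟨h1, h2⟩ := phi_bounds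
  have h4 : goldenRatio ^ 4 = 3 * goldenRatio + 2 := by
    linear_combination (goldenRatio ^ 2 + goldenRatio + 2) * h
  have h8 : goldenRatio ^ 8 = 21 * goldenRatio + 13 := by
    have : goldenRatio ^ 8 = (goldenRatio ^ 4) ^ 2 := by ring
    rw [this, h4]
    linear_combination 9 * h
  rw [h8]
  norm_num [Nat.fib]
  linarith

lemma H9 : H 9 ≤ 2590 ∧ H 10 ≤ 6780 := by
  have h := phi_sq
  obtain ⟨h1, h2⟩ := phi_bounds
  have h4 : goldenRatio ^ 4 = 3 * goldenRatio + 2 := by
    linear_combination (goldenRatio ^ 2 + goldenRatio + 2) * h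
  have h8 : goldenRatio ^ 8 = 21 * goldenRatio + 13 := by
    have : goldenRatio ^ 8 = (goldenRatio ^ 4) ^ 2 := by ring
    rw [this, h4]
    linear_combination 9 * h
  have h9 : goldenRatio ^ 9 = 34 * goldenRatio + 21 := by
    have : goldenRatio ^ 9 = goldenRatio ^ 8 * goldenRatio := by ring
    rw [this, h8]
    linear_combination 21 * h
  have h10 : goldenRatio ^ 10 = 55 * goldenRatio + 34 := by
    have : goldenRatio ^ 10 = goldenRatio ^ 9 * goldenRatio := by ring
    rw [this, h9]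
    linear_combination 34 * h
  unfold H
  constructor
  · rw [h9]; norm_num [Nat.fib]; linarith
  · rw [h10]; norm_num [Nat.fib]; linarith

lemma H_tendsto (n : ℕ) : ∃ j, ∀ i, j ≤ i → (n : ℝ) ≤ H i := by
  refine ⟨n + 5, fun i hi => ?_⟩
  refine le_trans ?_ (H_mono hi)
  unfold H
  have h1 : (n : ℝ) ≤ (Nat.fib (n + 5) : ℝ) := by
    have : n + 5 ≤ Nat.fib (n + 5) := Nat.le_fib_self (by omega)
    exact_mod_cast (by omega : n ≤ Nat.fib (n + 5))
  have h2 : (1 : ℝ) ≤ goldenRatio ^ (n + 5) := one_le_pow₀ one_lt_goldenRatio.le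
  nlinarith [Nat.cast_nonneg (α := ℝ) (Nat.fib (n + 5)), Nat.cast_nonneg (α := ℝ) n]

lemma ratio {a b : ℝ} (ha : 986 ≤ a)
    (hab : (goldenRatio + 1) * a - goldenRatio ≤ b ∧ b ≤ (goldenRatio + 1) * a + goldenRatio) :
    2.6 * a ≤ b ∧ b ≤ 2.62 * a := by
  obtain ⟨φ1, φ2⟩ := phi_bounds
  have h1 : 1.618033 * a ≤ goldenRatio * a := mul_le_mul_of_nonneg_right φ1.le (by linarith)
  have h2 : goldenRatio * a ≤ 1.618034 * a := mul_le_mul_of_nonneg_right φ2.le (by linarith)
  constructor <;> linarith [hab.1, hab.2]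

lemma r1 {a b N : ℝ} (ha : 0 < a) (hb : 0 < b) (hab : b ≤ 2.62 * a) (h : a * b < N * (a + b)) :
    0.27 * b ≤ N := by
  by_contra hcon
  push Not at hcon
  have h1 : N * (a + b) ≤ 0.27 * b * (a + b) :=
    mul_le_mul_of_nonneg_right hcon.le (by linarith)
  have h2 : b * b ≤ 2.62 * a * b := mul_le_mul_of_nonneg_right hab hb.le
  have h3 : 0 < a * b := mul_pos ha hb
  linarith

lemma r2 {c d N : ℝ} (hc : 0 < c) (hd : 0 < d) (hcd : d ≤ 2.62 * c)
    (h : N * (c + d) ≤ c * d) : N ≤ 0.73 * c := by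
  by_contra hcon
  push Not at hcon
  have h1 : 0.73 * c * (c + d) ≤ N * (c + d) :=
    mul_le_mul_of_nonneg_right hcon.le (by linarith)
  have h2 : d * c ≤ 2.62 * c * c := mul_le_mul_of_nonneg_right hcd hc.le
  have h3 : 0 < c * c := mul_pos hc hc
  linarith

lemma large {A B n : ℝ} (hn : 1880 ≤ n) (hA : 0 < A) (hB : 0 < B) (hA' : A ≤ 2590)
    (hB' : B ≤ 6780) (h : n * (A + B) ≤ A * B) : False := by
  have h1 : 1880 * (A + B) ≤ n * (A + B) := mul_le_mul_of_nonneg_right hn (by linarith)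
  -- A B <= 2590 B and A B <= 6780 A
  have h2 : A * B ≤ 2590 * B := mul_le_mul_of_nonneg_right hA' hB.le
  have h3 : A * B ≤ A * 6780 := mul_le_mul_of_nonneg_left hB' hA.le
  linarith

/-- **Threshold lemma**. -/
theorem threshold (par n0 : ℕ) (hpar : par < 2) (hn : 1880 ≤ n0) :
    ∃ τ : ℝ, 0.27 ≤ τ ∧ τ ≤ 0.73 ∧ ∀ m : ℕ, m ≤ n0 + 13 → n0 ≤ m + 13 → ∀ x : ℝ, 0 ≤ x → x ≤ 1 →
      (x < τ - 0.016 → Mem par m x) ∧ (Mem par m x → x ≤ τ + 0.016) := by
  have hφ := phi_sq
  -- choose the index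
  have hex : ∃ i, (n0 : ℝ) * (H (2 * i + par + 1) + H (2 * i + par + 2)) ≤
      H (2 * i + par + 1) * H (2 * i + par + 2) := by
    obtain ⟨j, hj⟩ := H_tendsto (2 * n0)
    refine ⟨j, ?_⟩
    have h1 := hj (2 * j + par + 1) (by omega)
    have h2 := hj (2 * j + par + 2) (by omega)
    push_cast at h1 h2
    have h3 := H_nonneg (2 * j + par + 1)
    have h4 := H_nonneg (2 * j + par + 2)
    have h5 := mul_le_mul_of_nonneg_right h1 h4
    have h6 := mul_le_mul_of_nonneg_right h2 h3
    linarith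
  classical
  have hfind := Nat.find_spec hex
  have hmin := fun i (hi : i < Nat.find hex) => Nat.find_min hex hi
  set i0 := Nat.find hex with hi0
  have hn' : (1880 : ℝ) ≤ n0 := by exact_mod_cast hn
  -- i0 is large
  obtain ⟨H9', H10'⟩ := H9
  have hlarge : 9 ≤ 2 * i0 + par := by
    by_contra hcon
    push Not at hcon
    have h1 : H (2 * i0 + par + 1) ≤ H 9 := H_mono (by omega)
    have h2 : H (2 * i0 + par + 2) ≤ H 10 := H_mono (by omega)
    have h3 : 0 < H (2 * i0 + par + 1) := by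
      unfold H
      exact mul_pos (by exact_mod_cast Nat.fib_pos.2 (by omega)) (pow_pos goldenRatio_pos _)
    have h4 : 0 < H (2 * i0 + par + 2) := by
      unfold H
      exact mul_pos (by exact_mod_cast Nat.fib_pos.2 (by omega)) (pow_pos goldenRatio_pos _)
    exact large hn' h3 h4 (h1.trans H9') (h2.trans H10') hfind
  have hmin' := hmin (i0 - 1) (by omega)
  rw [not_le, show 2 * (i0 - 1) + par + 1 = 2 * i0 + par - 1 by omega,
    show 2 * (i0 - 1) + par + 2 = 2 * i0 + par by omega] at hmin'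
  obtain ⟨j, hj⟩ : ∃ j, j = 2 * i0 + par := ⟨_, rfl⟩
  rw [← hj] at hfind hmin' hlarge
  have hjpar : j % 2 = par := by omega
  -- names
  obtain ⟨a, ha⟩ : ∃ a, a = H (j - 1) := ⟨_, rfl⟩
  obtain ⟨b, hb⟩ : ∃ b, b = H j := ⟨_, rfl⟩
  obtain ⟨c, hc⟩ : ∃ c, c = H (j + 1) := ⟨_, rfl⟩
  obtain ⟨d, hd⟩ : ∃ d, d = H (j + 2) := ⟨_, rfl⟩
  have ha986 : 986 ≤ a := by rw [ha]; exact H8.trans (H_mono (by omega))
  have hab := H_succ_bounds (j - 1)
  rw [show j - 1 + 1 = j by omega, ← ha, ← hb, hφ] at hab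
  have hbc := H_succ_bounds j
  rw [← hb, ← hc, hφ] at hbc
  have hcd := H_succ_bounds (j + 1)
  rw [show j + 1 + 1 = j + 2 by ring, ← hc, ← hd, hφ] at hcd
  rw [← ha, ← hb] at hmin'
  rw [← hc, ← hd] at hfind
  obtain ⟨hb1, hb2⟩ := ratio ha986 hab
  obtain ⟨hc1, hc2⟩ := ratio (a := b) (by linarith) hbc
  obtain ⟨hd1, hd2⟩ := ratio (a := c) (by linarith) hcd
  have hb0 : 0 < b := by linarith
  have hc0 : 0 < c := by linarith
  have hd0 : 0 < d := by linarith
  have ha0 : 0 < a := by linarith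
  obtain ⟨N, hN⟩ : ∃ N : ℝ, N = n0 := ⟨_, rfl⟩
  rw [← hN] at hfind hmin' hn'
  have hr1 : 0.27 * b ≤ N := r1 ha0 hb0 hb2 hmin'
  have hr2 : N ≤ 0.73 * c := r2 hc0 hd0 hd2 hfind
  refine ⟨min (N / b) (1 - N / c), ?_, ?_, ?_⟩
  · apply le_min
    · rw [le_div_iff₀ hb0]; exact hr1
    · rw [le_sub_comm, div_le_iff₀ hc0]; linarith
  · by_cases h : N / b ≤ 0.73
    · exact (min_le_left _ _).trans h
    · push Not at h
      rw [lt_div_iff₀ hb0] at h
      refine (min_le_right _ _).trans ?_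
      rw [sub_le_comm, le_div_iff₀ hc0]
      linarith
  · intro m hm1 hm2 x hx0 hx1
    have hm1' : (m : ℝ) ≤ N + 13 := by rw [hN]; exact_mod_cast hm1
    have hm2' : N ≤ (m : ℝ) + 13 := by rw [hN]; exact_mod_cast hm2
    clear hab hbc hcd hmin hn'
    constructor
    · intro hx
      have h1 : x < N / b - 0.016 := lt_of_lt_of_le hx (by linarith [min_le_left (N / b) (1 - N / c)])
      have h2 : x < 1 - N / c - 0.016 :=
        lt_of_lt_of_le hx (by linarith [min_le_right (N / b) (1 - N / c)])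
      refine ⟨j, hjpar, ?_, ?_⟩
      · rw [← hb]
        have h3 : (x + 0.016) * b < N := by rw [← lt_div_iff₀ hb0]; linarith
        linarith
      · rw [← hc]
        have h3 : N < (1 - x - 0.016) * c := by rw [← div_lt_iff₀ hc0]; linarith
        linarith
    · rintro ⟨j', hj', h1, h2⟩
      have goal1 : (x - 0.016) * b ≤ N → N ≤ (1 - x + 0.016) * c →
          x ≤ min (N / b) (1 - N / c) + 0.016 := by
        intro g1 g2
        have g1' : x - 0.016 ≤ N / b := by rw [le_div_iff₀ hb0]; exact g1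
        have g2' : N / c ≤ 1 - x + 0.016 := by rw [div_le_iff₀ hc0]; exact g2
        have : x - 0.016 ≤ min (N / b) (1 - N / c) := le_min g1' (by linarith)
        linarith
      rcases lt_trichotomy j' j with h | h | h
      · have hle : H (j' + 1) ≤ a := by rw [ha]; exact H_mono (by omega)
        have h3 : (m : ℝ) ≤ a * (1 - x) := h2.trans (mul_le_mul_of_nonneg_right hle (by linarith))
        have h4 : x * a ≤ a - N + 13 := by linarith
        apply goal1
        · have h5 : x * a * b ≤ (a - N + 13) * b := mul_le_mul_of_nonneg_right h4 hb0.le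
          have h7 : 986 * b ≤ a * b := mul_le_mul_of_nonneg_right ha986 hb0.le
          have h6 : (x - 0.016) * b * a ≤ N * a := by linarith
          exact le_of_mul_le_mul_right h6 ha0
        · have h5 : a * (1 - x) ≤ c * (1 - x) :=
            mul_le_mul_of_nonneg_right (by linarith) (by linarith)
          linarith
      · subst h
        rw [← hb] at h1
        rw [← hc] at h2
        apply goal1 <;> linarith
      · have hle : d ≤ H j' := by rw [hd]; exact H_mono (by omega)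
        have h3 : d * x ≤ m := (mul_le_mul_of_nonneg_right hle hx0).trans h1.le
        have h4 : d * x ≤ N + 13 := by linarith
        have h8 : b * x ≤ d * x := mul_le_mul_of_nonneg_right (by linarith) hx0
        apply goal1
        · linarith
        · have h5 : (d * x) * c ≤ (N + 13) * c := mul_le_mul_of_nonneg_right h4 hc0.le
          have h7 : 986 * c ≤ d * c := mul_le_mul_of_nonneg_right (by linarith) hc0.le
          have h6 : N * d ≤ (1 - x + 0.016) * c * d := by linarith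
          exact le_of_mul_le_mul_right h6 hd0

end Pool.Agent.V11124.FW
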